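import Pool.Agent.Lib.MP_43eaec_an.Defs

/-! # Addresses and the self-similar set -/

set_option autoImplicit false

namespace Pool.Agent.Lib.MP_43eaec_an

open Filter Topology

variable {d k : ℕ} {p : Fin k → EuclideanSpace ℝ (Fin d)} {lam : ℝ}

/-- put a digit in front of a sequence -/
def scons {α : Type*} (i : α) (ε : ℕ → α) : ℕ → α
  | 0 => i
  | n + 1 => ε n

theorem addr_cons {x : EuclideanSpace ℝ (Fin d)} {ε : ℕ → Fin k} (h : IsAddress p lam x ε)
    (i : Fin k) : IsAddress p lam (lam • x + (1 - lam) • p i) (scons i ε) := by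
  unfold IsAddress at *
  have h1 := h.const_smul lam
  have h2 : HasSum (fun n => ((1 - lam) * lam ^ (n + 1)) • p (scons i ε (n + 1))) (lam • x) := by
    refine h1.congr_fun fun n => ?_ 
    rw [smul_smul]
    simp only [scons]
    congr 1
    ring
  have h3 := (hasSum_nat_add_iff (f := fun n => ((1 - lam) * lam ^ n) • p (scons i ε n)) 1).1 h2
  simpa [scons] using h3

theorem addr_tail {x : EuclideanSpace ℝ (Fin d)} {ε : ℕ → Fin k} (h : IsAddress p lam x ε)
    (hl : lam ≠ 0) : ∃ y, IsAddress p lam y (fun n => ε (n + 1)) ∧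
      x = lam • y + (1 - lam) • p (ε 0) := by
  unfold IsAddress at *
  refine ⟨lam⁻¹ • (x - (1 - lam) • p (ε 0)), ?_, ?_⟩
  · have h2 := (hasSum_nat_add_iff' (f := fun n => ((1 - lam) * lam ^ n) • p (ε n)) 1).2 h
    simp only [Finset.range_one, Finset.sum_singleton, pow_zero, mul_one] at h2
    have h3 := h2.const_smul lam⁻¹
    refine h3.congr_fun fun n => ?_
    rw [smul_smul]
    congr 1
    rw [pow_succ]
    field_simp
  · rw [smul_smul, mul_inv_cancel₀ hl, one_smul]
    abel

theorem addr_scons_iff {x : EuclideanSpace ℝ (Fin d)} (hl : lam ≠ 0) {i : Fin k}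
    {ε : ℕ → Fin k} (h : IsAddress p lam (lam • x + (1 - lam) • p i) (scons i ε)) :
    IsAddress p lam x ε := by
  obtain ⟨y, hy, he⟩ := addr_tail h hl
  have : x = y := by
    have h1 : lam • x = lam • y := by
      have := he
      simp only [scons] at this
      exact add_right_cancel this
    have h2 := congrArg (fun z => lam⁻¹ • z) h1
    simpa [smul_smul, inv_mul_cancel₀ hl] using h2
  rw [this]
  exact hy

theorem addr_of_orbit (h0 : 0 < lam) (h1 : lam < 1) {z : ℕ → EuclideanSpace ℝ (Fin d)}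
    {e : ℕ → Fin k} (hz : ∀ n, z n = lam • z (n + 1) + (1 - lam) • p (e n))
    (hb : ∃ C, ∀ n, ‖z n‖ ≤ C) : IsAddress p lam (z 0) e := by
  unfold IsAddress
  obtain ⟨C, hC⟩ := hb
  have hsum : Summable fun n => ‖((1 - lam) * lam ^ n) • p (e n)‖ := by
    obtain ⟨M, hM⟩ : ∃ M, ∀ i, ‖p i‖ ≤ M := by
      obtain ⟨M, hM⟩ := (Set.finite_range fun i => ‖p i‖).bddAbove
      exact ⟨M, fun i => hM ⟨i, rfl⟩⟩
    have hg : Summable fun n : ℕ => (1 - lam) * lam ^ n * M :=
      ((summable_geometric_of_lt_one h0.le h1).mul_left (1 - lam)).mul_right M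
    refine Summable.of_nonneg_of_le (fun n => norm_nonneg _) (fun n => ?_) hg
    rw [norm_smul, Real.norm_of_nonneg (by have := pow_pos h0 n; nlinarith)]
    exact mul_le_mul_of_nonneg_left (hM _) (by have := pow_pos h0 n; nlinarith)
  rw [hasSum_iff_tendsto_nat_of_summable_norm hsum]
  have hpart : ∀ n, ∑ i ∈ Finset.range n, ((1 - lam) * lam ^ i) • p (e i) = z 0 - lam ^ n • z n := by
    intro n
    induction n with
    | zero => simp
    | succ n ih =>
      rw [Finset.sum_range_succ, ih]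
      conv_lhs => rw [hz n]
      rw [smul_add, smul_smul, smul_smul, pow_succ]
      rw [mul_comm (1 - lam) (lam ^ n)]
      abel
  simp only [hpart]
  have : Tendsto (fun n => lam ^ n • z n) atTop (𝓝 0) := by
    refine squeeze_zero_norm (a := fun n => lam ^ n * C) (fun n => ?_) ?_
    · rw [norm_smul, Real.norm_of_nonneg (pow_pos h0 n).le]
      exact mul_le_mul_of_nonneg_left (hC n) (pow_pos h0 n).le
    · have := (tendsto_pow_atTop_nhds_zero_of_lt_one h0.le h1).mul_const C
      simpa using this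
  simpa using tendsto_const_nhds.sub this

/-- weights sum to one -/
theorem hasSum_weights (h0 : 0 < lam) (h1 : lam < 1) :
    HasSum (fun n : ℕ => (1 - lam) * lam ^ n) 1 := by
  have h := (hasSum_geometric_of_lt_one h0.le h1).mul_left (1 - lam)
  rwa [mul_inv_cancel₀ (by linarith)] at h

theorem addr_le (h0 : 0 < lam) (h1 : lam < 1) {x : EuclideanSpace ℝ (Fin d)} {ε : ℕ → Fin k}
    (h : IsAddress p lam x ε) (g : EuclideanSpace ℝ (Fin d) →L[ℝ] ℝ) {M : ℝ}
    (hg : ∀ i, g (p i) ≤ M) : g x ≤ M := by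
  have h2 := h.mapL g
  have h3 := (hasSum_weights h0 h1).mul_right M
  rw [one_mul] at h3
  refine hasSum_le (fun n => ?_) h2 h3
  rw [map_smul, smul_eq_mul]
  exact mul_le_mul_of_nonneg_left (hg _) (by have := pow_pos h0 n; nlinarith)

theorem addr_const (h0 : 0 < lam) (h1 : lam < 1) (i : Fin k) :
    IsAddress p lam (p i) (fun _ => i) := by
  unfold IsAddress
  have h := (hasSum_weights h0 h1).smul_const (p i)
  simpa using h

theorem addr_unique {x y : EuclideanSpace ℝ (Fin d)} {ε : ℕ → Fin k} (hx : IsAddress p lam x ε)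
    (hy : IsAddress p lam y ε) : x = y := HasSum.unique hx hy

/-- the set of points with an address -/
def codeSet (p : Fin k → EuclideanSpace ℝ (Fin d)) (lam : ℝ) : Set (EuclideanSpace ℝ (Fin d)) :=
  {x | ∃ ε, IsAddress p lam x ε}

theorem exists_addr (h0 : 0 < lam) (h1 : lam < 1) (ε : ℕ → Fin k) :
    ∃ x, IsAddress p lam x ε := by
  have hsum : Summable fun n => ‖((1 - lam) * lam ^ n) • p (ε n)‖ := by
    obtain ⟨M, hM⟩ : ∃ M, ∀ i, ‖p i‖ ≤ M := by
      obtain ⟨M, hM⟩ := (Set.finite_range fun i => ‖p i‖).bddAbove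
      exact ⟨M, fun i => hM ⟨i, rfl⟩⟩
    have hg : Summable fun n : ℕ => (1 - lam) * lam ^ n * M :=
      ((summable_geometric_of_lt_one h0.le h1).mul_left (1 - lam)).mul_right M
    refine Summable.of_nonneg_of_le (fun n => norm_nonneg _) (fun n => ?_) hg
    rw [norm_smul, Real.norm_of_nonneg (by have := pow_pos h0 n; nlinarith)]
    exact mul_le_mul_of_nonneg_left (hM _) (by have := pow_pos h0 n; nlinarith)
  exact ⟨_, hsum.of_norm.hasSum⟩

theorem codeSet_attractor (h0 : 0 < lam) (h1 : lam < 1) (hk : 0 < k) :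
    IsAttractor p lam (codeSet p lam) := by
  have hne : (codeSet p lam).Nonempty :=
    ⟨p ⟨0, hk⟩, fun _ => ⟨0, hk⟩, addr_const h0 h1 _⟩
  refine ⟨hne, ?_, ?_⟩
  · -- compactness
    obtain ⟨M, hM⟩ : ∃ M, ∀ i, ‖p i‖ ≤ M := by
      obtain ⟨M, hM⟩ := (Set.finite_range fun i => ‖p i‖).bddAbove
      exact ⟨M, fun i => hM ⟨i, rfl⟩⟩
    have hcont : Continuous fun ε : ℕ → Fin k => ∑' n, ((1 - lam) * lam ^ n) • p (ε n) := by
      refine continuous_tsum (u := fun n => (1 - lam) * lam ^ n * M) (fun n => ?_) ?_ ?_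
      · have hc : Continuous fun ε : ℕ → Fin k => p (ε n) :=
          (continuous_of_discreteTopology (f := fun i : Fin k => p i)).comp
            (continuous_apply (A := fun _ : ℕ => Fin k) n)
        exact hc.const_smul ((1 - lam) * lam ^ n)
      · exact ((summable_geometric_of_lt_one h0.le h1).mul_left (1 - lam)).mul_right M
      · intro n ε
        rw [norm_smul, Real.norm_of_nonneg (by have := pow_pos h0 n; nlinarith)]
        exact mul_le_mul_of_nonneg_left (hM _) (by have := pow_pos h0 n; nlinarith)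
    have : codeSet p lam = Set.range fun ε : ℕ → Fin k => ∑' n, ((1 - lam) * lam ^ n) • p (ε n) := by
      ext x
      constructor
      · rintro ⟨ε, h⟩
        exact ⟨ε, h.tsum_eq⟩
      · rintro ⟨ε, rfl⟩
        obtain ⟨y, hy⟩ := exists_addr (p := p) h0 h1 ε
        exact ⟨ε, by
          have : (∑' n, ((1 - lam) * lam ^ n) • p (ε n)) = y := hy.tsum_eq
          show IsAddress p lam (∑' n, ((1 - lam) * lam ^ n) • p (ε n)) ε
          rw [this]; exact hy⟩
    rw [this]
    exact isCompact_range hcont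
  · ext x
    simp only [Set.mem_iUnion, Set.mem_image]
    constructor
    · rintro ⟨ε, h⟩
      obtain ⟨y, hy, he⟩ := addr_tail h h0.ne'
      exact ⟨ε 0, y, ⟨_, hy⟩, he.symm⟩
    · rintro ⟨i, y, ⟨ε, hy⟩, rfl⟩
      exact ⟨scons i ε, addr_cons hy i⟩

end Pool.Agent.Lib.MP_43eaec_an
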