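import Mathlib

/-! # Checking functions for the finite certificate (no threshold for a quadrilateral)

All numbers are natural numbers. Points of the plane have integer coordinates in a grid; besides the
coordinates `x`, `y` we use the functionals `v = 79477 x + 78000 y` and `h = 20523 x + 22000 y`,
constant on two edges of the quadrilateral. -/

set_option autoImplicit false

namespace Pool.Agent.Lib.MP_43eaec_an

/-- the four digits -/
inductive Dg where
  | a : Dg
  | b : Dg
  | c : Dg
  | d : Dg
deriving DecidableEq

/-- lower and upper bounds for the functionals `x`, `y`, `v`, `h` -/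
structure Bd where
  lx : ℕ
  ux : ℕ
  ly : ℕ
  uy : ℕ
  lv : ℕ
  uv : ℕ
  lh : ℕ
  uh : ℕ

/-- value of `x` at the vertices -/
def vx : Dg → ℕ
  | .a => 0
  | .b => 1000000
  | .c => 220000
  | .d => 0

/-- value of `y` at the vertices -/
def vy : Dg → ℕ
  | .a => 0
  | .b => 0
  | .c => 794770
  | .d => 1000000

/-- value of `v` at the vertices -/
def vv : Dg → ℕ
  | .a => 0
  | .b => 79477000000
  | .c => 79477000000
  | .d => 78000000000

/-- value of `h` at the vertices -/
def vh : Dg → ℕ
  | .a => 0
  | .b => 20523000000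
  | .c => 22000000000
  | .d => 22000000000

/-- certified lower bound for `x` -/
def geX (b : Bd) (c : ℕ) : Bool :=
  Nat.ble c b.lx || Nat.ble (79477 * c + 78000 * b.uy) b.lv ||
    Nat.ble (20523 * c + 22000 * b.uy) b.lh || Nat.ble (147700000 * c + 78000 * b.uh) (22000 * b.lv)

/-- certified lower bound for `y` -/
def geY (b : Bd) (c : ℕ) : Bool :=
  Nat.ble c b.ly || Nat.ble (78000 * c + 79477 * b.ux) b.lv ||
    Nat.ble (22000 * c + 20523 * b.ux) b.lh || Nat.ble (147700000 * c + 20523 * b.uv) (79477 * b.lh)

/-- certified lower bound for `v` -/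
def geV (b : Bd) (c : ℕ) : Bool :=
  Nat.ble c b.lv || Nat.ble c (79477 * b.lx + 78000 * b.ly) ||
    Nat.ble (22000 * c) (78000 * b.lh + 147700000 * b.lx) ||
    Nat.ble (20523 * c + 147700000 * b.uy) (79477 * b.lh)

/-- certified lower bound for `h` -/
def geH (b : Bd) (c : ℕ) : Bool :=
  Nat.ble c b.lh || Nat.ble c (20523 * b.lx + 22000 * b.ly) ||
    Nat.ble (78000 * c + 147700000 * b.ux) (22000 * b.lv) ||
    Nat.ble (79477 * c) (20523 * b.lv + 147700000 * b.ly)

/-- certified upper bound for `x` -/
def leX (b : Bd) (c : ℕ) : Bool :=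
  Nat.ble b.ux c || Nat.ble b.uv (79477 * c + 78000 * b.ly) ||
    Nat.ble b.uh (20523 * c + 22000 * b.ly) || Nat.ble (22000 * b.uv) (147700000 * c + 78000 * b.lh)

/-- certified upper bound for `y` -/
def leY (b : Bd) (c : ℕ) : Bool :=
  Nat.ble b.uy c || Nat.ble b.uv (78000 * c + 79477 * b.lx) ||
    Nat.ble b.uh (22000 * c + 20523 * b.lx) || Nat.ble (79477 * b.uh) (147700000 * c + 20523 * b.lv)

/-- certified upper bound for `v` -/
def leV (b : Bd) (c : ℕ) : Bool :=
  Nat.ble b.uv c || Nat.ble (79477 * b.ux + 78000 * b.uy) c ||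
    Nat.ble (78000 * b.uh + 147700000 * b.ux) (22000 * c) ||
    Nat.ble (79477 * b.uh) (20523 * c + 147700000 * b.ly)

/-- certified upper bound for `h` -/
def leH (b : Bd) (c : ℕ) : Bool :=
  Nat.ble b.uh c || Nat.ble (20523 * b.ux + 22000 * b.uy) c ||
    Nat.ble (22000 * b.uv) (78000 * c + 147700000 * b.lx) ||
    Nat.ble (20523 * b.uv + 147700000 * b.uy) (79477 * c)

/-- the cell `b` (in units of `1/35`) does not meet the image of the hole `k` under the map `e` -/
def sepFrom (b : Bd) (e : Dg) (k : Bd) : Bool :=
  geX b (22 * k.ux + 13 * vx e) || geY b (22 * k.uy + 13 * vy e) ||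
    leV b (22 * k.lv + 13 * vv e) || leH b (22 * k.lh + 13 * vh e) ||
    leX b (22 * k.lx + 13 * vx e) || leY b (22 * k.ly + 13 * vy e) ||
    geV b (22 * k.uv + 13 * vv e) || geH b (22 * k.uh + 13 * vh e)

/-- the part of the cell `b` outside the holes lies in the image under `e` of the good set -/
def leafOK (hs : List Bd) (b : Bd) (e : Dg) : Bool :=
  geX b (13 * vx e) && geY b (13 * vy e) &&
    leV b (22 * 79477000000 + 13 * vv e) && leH b (22 * 22000000000 + 13 * vh e) &&
    geV b (22 * 5563390000 + 13 * vv e) && leX b (22 * 930000 + 13 * vx e) &&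
    hs.all (sepFrom b e)

/-- the cell `b` lies inside the hole `k` -/
def holeOK (b : Bd) (k : Bd) : Bool :=
  geX b (35 * k.lx + 1) && leX b (35 * k.ux - 1) &&
    geY b (35 * k.ly + 1) && leY b (35 * k.uy - 1) &&
    geV b (35 * k.lv + 1) && leV b (35 * k.uv - 1) &&
    geH b (35 * k.lh + 1) && leH b (35 * k.uh - 1)

/-- binary space partition of the good region; the values are in units of `1/35` -/
inductive CTree where
  | leaf : Dg → CTree
  | hole : ℕ → CTree
  | nx : ℕ → CTree → CTree → CTree
  | ny : ℕ → CTree → CTree → CTree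
  | nv : ℕ → CTree → CTree → CTree
  | nh : ℕ → CTree → CTree → CTree

/-- check of a partition tree -/
def chkC (hs : List Bd) : CTree → Bd → Bool
  | .leaf e, b => leafOK hs b e
  | .hole j, b => match hs[j]? with
    | some k => holeOK b k
    | none => false
  | .nx c l r, b => chkC hs l ⟨b.lx, c, b.ly, b.uy, b.lv, b.uv, b.lh, b.uh⟩ &&
      chkC hs r ⟨c, b.ux, b.ly, b.uy, b.lv, b.uv, b.lh, b.uh⟩
  | .ny c l r, b => chkC hs l ⟨b.lx, b.ux, b.ly, c, b.lv, b.uv, b.lh, b.uh⟩ &&
      chkC hs r ⟨b.lx, b.ux, c, b.uy, b.lv, b.uv, b.lh, b.uh⟩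
  | .nv c l r, b => chkC hs l ⟨b.lx, b.ux, b.ly, b.uy, b.lv, c, b.lh, b.uh⟩ &&
      chkC hs r ⟨b.lx, b.ux, b.ly, b.uy, c, b.uv, b.lh, b.uh⟩
  | .nh c l r, b => chkC hs l ⟨b.lx, b.ux, b.ly, b.uy, b.lv, b.uv, b.lh, c⟩ &&
      chkC hs r ⟨b.lx, b.ux, b.ly, b.uy, b.lv, b.uv, c, b.uh⟩

/-- tries of digit words; a leaf carries the word of the replacement -/
inductive Trie where
  | E : Trie
  | L : List Dg → Trie
  | N : Trie → Trie → Trie → Trie → Trie

/-- child of a trie -/
def child : Trie → Dg → Trie
  | .N p _ _ _, .a => p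
  | .N _ p _ _, .b => p
  | .N _ _ p _, .c => p
  | .N _ _ _ p, .d => p
  | .E, _ => .E
  | .L _, _ => .E

/-- accumulated offsets of a composition: `35 ^ n` times the offsets, `22 ^ n`, `35 ^ n` -/
structure Acc where
  x : ℕ
  y : ℕ
  v : ℕ
  h : ℕ
  p : ℕ
  q : ℕ

/-- append a digit to a composition -/
def Acc.push (s : Acc) (e : Dg) : Acc :=
  ⟨35 * s.x + 13 * s.p * vx e, 35 * s.y + 13 * s.p * vy e, 35 * s.v + 13 * s.p * vv e,
    35 * s.h + 13 * s.p * vh e, 22 * s.p, 35 * s.q⟩

/-- the empty composition -/
def acc0 : Acc := ⟨0, 0, 0, 0, 1, 1⟩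

/-- offsets of a word -/
def accL : List Dg → Acc → Acc
  | [], s => s
  | e :: l, s => accL l (s.push e)

/-- the image of the quadrilateral under the composition `s` does not meet the image of the hole
`k` under the composition `t`; here `s.q = m * t.q` -/
def sepW (s t : Acc) (m : ℕ) (k : Bd) : Bool :=
  Nat.ble (m * (t.x + t.p * k.ux)) s.x || Nat.ble (m * (t.y + t.p * k.uy)) s.y ||
    Nat.ble (s.v + s.p * 79477000000) (m * (t.v + t.p * k.lv)) ||
    Nat.ble (s.h + s.p * 22000000000) (m * (t.h + t.p * k.lh))

/-- the image of the quadrilateral under the composition `s` lies in the image under `t` of the good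
set -/
def wordOK (hs : List Bd) (s t : Acc) (m : ℕ) : Bool :=
  Nat.beq s.q (m * t.q) && Nat.ble (m * t.x) s.x && Nat.ble (m * t.y) s.y &&
    Nat.ble (s.v + s.p * 79477000000) (m * (t.v + t.p * 79477000000)) &&
    Nat.ble (s.h + s.p * 22000000000) (m * (t.h + t.p * 22000000000)) &&
    Nat.ble (m * (t.v + t.p * 5563390000)) s.v &&
    Nat.ble (s.x + s.p * 1000000) (m * (t.x + t.p * 930000)) &&
    hs.all (sepW s t m)

/-- different digits -/
def Dg.ne : Dg → Dg → Bool
  | .a, .a => false
  | .b, .b => false
  | .c, .c => false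
  | .d, .d => false
  | _, _ => true

/-- check of a leaf of the trie -/
def leafW (hs : List Bd) (first : Dg) (s : Acc) (w : List Dg) : Bool :=
  match w with
  | [] => false
  | e :: l => Dg.ne first e && (fun t : Acc => wordOK hs s t (s.q / t.q)) (accL l (acc0.push e))

/-- check of the words of a trie -/
def chkW (hs : List Bd) (first : Dg) : Trie → Acc → Bool
  | .E, _ => true
  | .L w, s => leafW hs first s w
  | .N p q r t, s => chkW hs first p (s.push .a) && chkW hs first q (s.push .b) &&
      chkW hs first r (s.push .c) && chkW hs first t (s.push .d)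

/-- check of all words of a trie -/
def chkRoot (hs : List Bd) : Trie → Bool
  | .N p q r t => chkW hs .a p (acc0.push .a) && chkW hs .b q (acc0.push .b) &&
      chkW hs .c r (acc0.push .c) && chkW hs .d t (acc0.push .d)
  | _ => false

/-- read one digit in all active tries; `none` if some leaf is reached -/
def stepT (e : Dg) : List Trie → Option (List Trie)
  | [] => some []
  | t :: ts => match child t e with
    | .E => stepT e ts
    | .L _ => none
    | .N p q r s => match stepT e ts with
      | none => none
      | some l => some (.N p q r s :: l)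

/-- all continuations of the present state meet a word of the trie within `n` steps -/
def dfs (root : Trie) : ℕ → List Trie → Bool
  | 0, _ => false
  | n + 1, act =>
    (match stepT .a (root :: act) with
      | none => true
      | some l => dfs root n l) &&
    (match stepT .b (root :: act) with
      | none => true
      | some l => dfs root n l) &&
    (match stepT .c (root :: act) with
      | none => true
      | some l => dfs root n l) &&
    (match stepT .d (root :: act) with
      | none => true
      | some l => dfs root n l)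

/-- start of the search: digits `e`, `f` with `e ≠ f` -/
def start (root : Trie) (n : ℕ) (e f : Dg) : Bool :=
  match stepT e [root] with
  | none => true
  | some l => match stepT f (root :: l) with
    | none => true
    | some l' => dfs root n l'

end Pool.Agent.Lib.MP_43eaec_an
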