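import Pool.Agent.Lib.MP_43eaec_an.CheckFns

/-! # The finite certificate: holes, partition tree, trie of words -/

set_option autoImplicit false
set_option maxRecDepth 100000

namespace Pool.Agent.Lib.MP_43eaec_an

open Dg Trie

def t0 : Trie :=
  (N (N E (N (N E (N E E E (N E E (L [b, a, a, a, a]) E)) E E) (N (N E (N E E (L [b, a, a, a, a]) (N E E (L [b, a, a, a, a]) E)) E E) (N E (L [b, a, a, a]) (L [b, a, a, a]) E) E E) E E) E E) (N (N (N E (N E (L [b, a, a, a]) (L [b, a, a, a]) E) E E) (N (N (L [b, a, a, a, a]) (L [b, a, a, a]) (N E (L [b, a, a, a]) E E) E) (N (L [b, a, a, a]) (L [b, a, a, a]) (L [b, a, a, a]) E) E E) E E) (N (N (N (L [b, a, a, a]) (L [b, a, a, a]) (L [b, a, a, a]) E) (L [b, a, a]) (L [b, a, a]) E) (N (N E E (L [b, a, a]) (N E (L [b, a, a]) (L [b, a, a]) E)) E (L [b, a, a]) (N E E (L [b, a, a]) E)) E (N E (L [b, a, a]) E E)) (N (N E E (L [b, a, a]) (L [b, a, a])) E (N (L [b, a, a])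 E E (L [b, a, a])) (N (L [b, a, a]) E (L [b, a, a]) E)) (N E E (N (L [b, a, a]) E E E) (L [b, a, a]))) (N E (N (L [b, a, a, a]) E (L [b, a, a]) (L [b, a, a])) (N (N E (N E (L [b, a, a]) E E) E E) (L [b, a, a]) (N E (L [b, a, a]) E E) E) (N E (N E E (L [b, a, a]) E) E E)) (N E (N E E (L [b, a, a]) E) E E))

def t1 : Trie :=
  (N t0 (N (N (N (N (N (L [b, a, a, a]) E (N (L [b, a, a, a]) E E E) E) (L [b, a, a, a]) (L [b, a, a, a]) E) (N (N E E (N E (L [b, a, a]) E E) E) (L [b, a, a]) (L [b, a, a, a]) E) E E) (N (N (L [b, a, a]) E E E) (L [b, a]) (L [b, a]) (N E E E (L [b, a]))) (N E (N E E (L [b, a]) (L [b, a])) E E) (N E (L [b, a]) E E)) (N (N (L [b, a]) E E E) (L [b, a]) (N E E (N E E E (L [b])) (N E E (L [b]) E)) (N E E E (L [b, a]))) (N E (N E E (L [b, a]) (L [b, a])) E E) E) (N (N E (L [b, a, a]) (N (N E (L [b, a, a]) E E) (L [b, a]) (N E (L [b, a]) E E) E) (N (N E (N E (L [b, a]) E E) E E) (L [b, a])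 E E)) E (N (N E (L [b, a]) (L [b, a]) E) (L [b, a]) (L [b, a]) E) (N (N E (L [b, a]) E E) (L [b, a]) E E)) (N (N E (N (N E (L [b, a, a]) (L [b, a, a]) (N E (L [b, a]) E E)) (L [b, a]) E E) E E) (L [b, a, a]) E E))

def t2 : Trie :=
  (N (N (N E (N (N E E (N E E (N (L [b, a, a]) E E E) E) E) (L [b, a, a]) (N E (L [b, a]) E E) E) E (N E E (L [b, a, a]) E)) (N (N (L [b, a, a]) E (N (L [b, a]) E E E) E) (N E E (L [b, a]) E) E E) E E) (N (N (N E E (N E (L [b]) E E) E) (L [b]) (L [b]) (N E (L [b]) (L [b]) E)) (N E (L [b]) (L [b]) (N E (L [b]) E E)) (N E E (L [b]) (L [b])) (N E (L [b]) (L [b]) E)) (N (N E (L [b]) E E) (N E E (N E (L [b]) E E) (N E (L [b]) E E)) E E) E)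

def t3 : Trie :=
  (N t2 (N (N (N E (L [b]) (N E (L [b]) E E) E) (L [b]) (N E (L [b]) (N E (L [b]) E E) (N E (L [b]) E E)) (N E (N E E (L [b]) (L [b])) E E)) (N E (L [b]) (N E (L [b]) (N E (L [b]) E E) (N E (L [b]) E E)) (N E (N E E (L [b]) (L [b])) E E)) (N (N E (L [b]) E E) E (N E (L [b]) (L [b]) E) (N E (L [b]) E E)) (N E (L [b]) E E)) (N (N E (N (N E E (L [b]) (L [b])) (L [b]) (L [b]) E) E E) (N (L [b]) E (N E (N E E (N E (L [b]) E E) E) E E) E) E E) E)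

def t4 : Trie :=
  (N E (N (N E (N (N E (L [b]) (N E (L [b]) (L [b]) (N E (L [b]) (L [b]) E)) (N E (L [b]) E E)) (L [b]) (L [b]) (N (N E (L [b]) E E) (L [b]) (N (N E E (L [b]) E) E E E) E)) (N E (N E E (N E (L [b]) (N E (L [b]) E E) E) (N E (N E E (L [b]) E) E E)) E E) E) (L [b]) (N (N E (N (N E (L [b]) E E) (L [b]) E E) E E) (L [b]) (N E (L [b]) E E) E) (N E (N E E (L [b]) E) E E)) E E)

def t5 : Trie :=
  (N (N E (N E (N (N E (N E (L [b]) E E) E E) (L [b]) E E) E E) E E) (N (N (N (N E (N E (N E E (L [b]) E) E E) E E) (N (N (N E E (L [b]) E) E E E) E E E) E E) (L [b]) (N (N E (N E (L [b]) (L [b]) (N E (L [b]) E E)) E E) (L [b]) E E) (N (N E (N E (N (N E (L [b]) E E) (L [b]) E E) E E) E E) (N (N (N (N E (L [b]) E E) (L [b]) E E) (L [b]) E E) E E E) E E)) E E E) E E)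

def t6 : Trie :=
  (N (N (N E E (N E E (N E E E (L [b, a, a])) (N E E (L [b, a, a]) E)) (N E E (N E E E (L [b, a, a])) (L [b, a, a]))) E (N (N E E E (L [b, a])) E E E) (N (L [b, a, a]) E E E)) (N (N E E (N E E (N E E E (L [b])) (N E E (L [b]) E)) (N E E (N E E E (L [b])) (L [b]))) (N (L [b]) E E E) (N (N E (L [b]) E (L [b])) (N (N (L [b]) E (N (L [b, a, a]) E E E) E) E E E) E E) (N (L [b]) E E E)) (N (N E (N E (L [b]) (L [b]) E) E E) (N (L [b]) E E E) E E) (N (L [b, a]) E (N (L [b]) E E (L [b])) (L [b])))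

def t7 : Trie :=
  (N (N (L [b]) (L [b]) (N (L [b]) (N (N (L [b]) E E E) E E E) E E) (N (L [b]) E E E)) (N (L [b]) (L [b]) (L [b]) (N (L [b]) (L [b]) (N (N E E (L [b]) E) E E E) E)) (N (N E (N E (L [b]) (L [b]) (L [b])) (L [b]) (L [b])) (N (L [b]) E (N (N E E E (L [b, a, a, a, b])) (L [b]) (L [b]) (N E (L [b]) (L [b]) E)) (N (N E E (L [b]) (L [b])) (N E E (L [b]) (L [b])) E E)) (N (L [b]) (N (L [b]) E (N E (N E E E (L [b])) (L [b]) (L [b])) (N E E (L [b]) (L [b]))) (L [b]) (L [b])) (N (L [b]) (N (L [b]) E (L [b]) (L [b])) (L [b]) E)) (N (L [b]) (N (L [b]) E (N (L [b]) E E E) (N (L [b]) E E E)) (N (L [b]) E E (L [b])) (L [b])))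

def t8 : Trie :=
  (N (N t6 (N (N (N (L [b]) E E E) (L [b]) (N (N E (L [b]) E (L [b])) (N (N (L [b]) E (L [b]) E) E E E) E E) (N (L [b]) E (N (N E E (L [b]) (L [b])) E E (L [b])) (L [b]))) (N (L [b]) (L [b]) (N (L [b]) (N (N (L [b]) E E E) E E E) E E) E) (N (N E (L [b]) E E) (N (L [b]) E E E) E E) (N (L [b]) E E E)) (N (N E (N (L [b, a, a, a, a, c]) (L [b]) (L [b]) E) E E) (N (L [b]) E E E) E E) (N (L [b]) E E E)) (N t7 (N (L [b]) (N (L [b]) (L [b]) (L [b]) (N E (L [b]) E E)) (N (L [b]) (N (L [b]) E (N E (L [b]) E E) E) E E) E) (N (N E (N (L [b, a, a, a, b, c]) (L [b]) (L [b]) (L [b])) (L [b]) (L [b])) (N (L [b]) E (L [b]) (L [b])) (N (L [b]) (L [b]) (N (L [b]) E E E) E) (N (L [b]) (N (L [b]) E E E) E E)) (N (L [b]) (N (L [b]) E (L [b]) (N (L [b]) E E E)) (N (L [b]) E E E) (N (L [b]) E E E))) (N (N E (N (N E (L [b, a, a, a, c]) (N E (L [b]) (L [b]) E) (N E (L [b]) E (L [b]))) (L [b]) (N (N E (L [b]) E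 E) (L [b]) (L [b]) (L [b])) (L [b])) (L [b]) (L [b])) (N (L [b, a, a, a]) E (N (L [b]) (N E E (N E E E (L [b])) (L [b, a, a])) (L [b]) (L [b])) (N (L [b]) (N E E (L [b]) (L [b])) (L [b]) (L [b]))) (L [b]) (L [b])) (N (L [b]) (N (L [b]) E (L [b]) (L [b])) (L [b]) (L [b])))

def t9 : Trie :=
  (N (N (L [b]) (N (L [b]) (L [b]) (N (L [b]) (L [b]) E E) (N (L [b]) E E E)) (N (L [b]) (N (L [b]) E E E) E E) (N (L [b]) E E E)) (N (L [b]) (L [b]) (N (L [b]) (L [b]) (N (L [b]) (L [b]) (L [b]) E) (N (L [b]) (L [b]) E E)) (N (L [b]) (L [b]) (N (L [b]) E E E) (N (L [b]) E E E))) (N (N E (N (L [b, a, a, b, a, c]) (L [b]) (L [b]) (L [b])) (L [b]) (L [b])) (N (L [b]) E (N (L [b]) (N E E (N E (L [b]) E (L [b])) (L [b, a, a, b])) (N E (L [b]) (N E (L [b]) E E) E) (N (L [b]) (N E E (L [b]) E) E E)) (N (L [b]) (N E E (L [b]) E) (N (L [b]) E E E) E)) (N (L [b]) (N (L [b]) E (N E (N E E E (L [b])) (L [b]) (L [b])) (N E E (L [b])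 (L [b]))) (L [b]) (L [b])) (N (L [b]) (N (L [b]) E (L [b]) (L [b])) (L [b]) E)) (N (L [b]) (N (L [b]) E (N (L [b]) E E E) (N (L [b]) E E E)) (N (L [b]) E E (L [b])) (L [b])))

def t10 : Trie :=
  (N (L [b]) (N (L [b]) (L [b]) (N (L [b]) (L [b]) (N (L [b]) (L [b]) (L [b]) E) (N (L [b]) (L [b]) E E)) (N (L [b]) (L [b]) (N (L [b]) E E E) (N (L [b]) E E E))) (N (L [b]) (N (L [b]) E (N (L [b]) (N E E (N E (L [b]) (L [b]) (L [b])) (L [b, a, b, a])) (N (L [b]) (L [b]) (L [b]) E) (N (L [b]) (L [b]) E E)) (N (L [b]) (N E E (L [b]) (L [b])) (N (L [b]) E E E) E)) (N (L [b]) (N (L [b]) E E E) (L [b]) (L [b])) (N (L [b]) (N (L [b]) E (L [b]) E) (L [b]) E)) (N (L [b]) (N (L [b]) E (N (L [b]) E E E) (N (L [b]) E E E)) (N (L [b]) E E E) (L [b])))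

def t11 : Trie :=
  (N t9 t10 (N (N E (N (N E (L [b, a, a, b, c]) (N (N E (L [b]) (N E (L [b]) (L [b]) E) (N E (N E E (L [b]) E) E E)) (L [b]) (L [b]) E) (N (N E (N E (L [b]) E E) (L [b]) E) (L [b]) E (L [b]))) (L [b]) (N (N E (L [b]) E E) (L [b]) (L [b]) (L [b])) (L [b])) (L [b]) (L [b])) (N (L [b]) E (L [b]) (L [b])) (N (L [b]) (N (L [b]) E (L [b]) E) (N (L [b]) E E E) E) (N (L [b]) (N (L [b]) E E E) E E)) (N (L [b]) (N (L [b]) E (N (L [b]) E E E) (N (L [b]) E E E)) (N (L [b]) E E E) (N (L [b]) E E E)))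

def t12 : Trie :=
  (N (L [b]) (N (N E (L [b]) E E) E E E) (N (N E (N E (N (N E E (N (L [b]) E E E) E) E E E) (N (N E (N (L [b]) (N (L [b]) E E E) E E) E E) (N (N (N (L [b]) E E E) E E E) E E E) E E) E) (L [b]) E) (N (N (N (L [b, a, a, c]) E E E) E E E) E E E) E E) (N (N E (N E (N (L [b, a, a]) (N (N (L [b, a, a]) E E E) E E E) E E) E E) E E) (N (N (N (L [b, a]) (N (N (L [b]) E E E) E E E) E E) E E E) E E E) E E))

def t13 : Trie :=
  (N (N E (N (N E (L [b, a, a, c]) (N (L [b]) (N (N (L [b]) E (L [b]) (N (N E (L [b]) (N (L [b]) E E E) (N (L [b]) E E E)) E (N E E E (L [b, a, a, c, a])) (N E E (L [b]) E))) E (L [b]) (N (N E E (L [b]) E) (L [b]) E E)) (L [b]) E) (N (L [b]) (N t12 E (L [b]) E) E (L [b]))) (N (L [b, a, a, c]) E (L [b]) (L [b])) (N (N E (L [b]) E E) (L [b]) (L [b]) (L [b])) (L [b])) (L [b]) (L [b])) (N (N (N (L [b, a, a, c]) E (L [b]) (L [b])) E (L [b]) (L [b])) E (N (L [b]) (N E E (N E (N E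 E (L [b]) (L [b])) (L [b]) (L [b])) (L [b, a])) (L [b]) (L [b])) (N (L [b]) (N E E (L [b]) (L [b])) (L [b]) (L [b]))) (L [b]) (L [b]))

def t14 : Trie :=
  (N (N (N E (L [b]) (N (N E (N E (N E E (N E (L [b]) E E) (N E (L [b]) E E)) E E) E E) (N (N (N E E (N E (L [b]) E E) E) E E E) E E E) E E) E) E (N (N E (L [b]) E E) (L [b]) E E) E) E (N (N E E (N E (L [b]) (N E (L [b]) E E) E) (N E (L [b]) E E)) E (N (N E (L [b]) E E) E (L [b]) (N E (L [b]) E E)) (N (N E (L [b]) E E) E E E)) (N (N E (L [b]) E E) E E E))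

def t15 : Trie :=
  (N (N E (N (N E (N E (N E (N (N E E (N (N E (L [b]) E E) E E E) (N E (L [b]) E E)) (L [b]) (N E (L [b]) (L [b]) (N E E (L [b]) E)) E) (N E (N E E (N E (L [b]) E E) E) E E) E) E E) E E) (N (N (N E (N (N E E (N E (L [b]) E E) E) (L [b]) (N E (L [b]) E E) E) E E) (L [b]) (N E (L [b]) E E) E) E (N (N E (L [b]) E E) (L [b]) E E) (N E (L [b]) E E)) E E) E E) (N t14 E (N (N E E (L [b]) (N E E (L [b]) E)) (L [b]) (L [b]) (N E (L [b]) (L [b]) E)) (N E (L [b]) E E)) (N E (N E E (N E (L [b]) E E) E) E E) E)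

def t16 : Trie :=
  (N (N E (N (N (N E (N E (N E (N (N E E (N E E (L [b, a, a, a, a, a]) (L [b, a, a, a, a, a])) (N E E (L [b, a, a, a, a, a]) E)) E E (N E E (L [b, a, a, a, a]) E)) E E) E E) E E) t1 (N E (N E E (N E (N E E (N E (L [b]) E E) E) E E) E) E E) E) t3 (N t4 (N (L [b]) E (L [b]) (L [b])) (N E (N E E (L [b]) E) E E) E) t5) E E) (N t8 t11 t13 (N (L [b]) (N (L [b]) E (L [b]) (L [b])) (L [b]) (L [b]))) t15 (N E (N (N E (N (N E (L [b]) E E) E E E) E E) E E E) E E))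

def t17 : Trie :=
  (N (N E (N (N E E (N (L [c]) E E E) (N (L [c]) E E (L [c]))) E E (N (L [c]) E E E)) (N (N E (N E (L [c]) (L [c]) E) (L [c]) (L [c])) (N (L [c]) E E E) (L [c]) E) (N (L [c]) (N (L [c]) E E E) E E)) (N E E (N E (N E E (L [c]) (N E (L [c]) (L [d]) (L [d]))) (N E (L [d]) (N E (L [d]) E E) E) (N E (L [d]) E E)) (N E (N E E (L [d]) (L [d])) E E)) (N E (N E E (N E (N E E (L [c]) (L [c])) (L [c]) (L [c])) (L [c])) (L [c]) (L [c])) (N E (N E E (L [c]) (L [c])) (L [c]) E))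

def t18 : Trie :=
  (N (N E E (N (N E E (N (N E E (N E E (N (L [c, a, a, a]) E E E) E) E) E E E) E) (N E E (N E E (N E E E (L [c])) (N E E (L [c]) E)) E) (N E (N E E (N E (L [c]) (N E E (L [c]) E) E) E) E E) E) E) (N (N E E (N E E E (N E E (N E E E (L [c])) E)) E) E (N (N E E (N (N E E (L [c]) E) E (L [c]) E) (N (L [c]) E (N (L [c]) E E E) E)) (N E E (N E (N E E (L [c]) (L [c])) (L [c]) (N E (L [c]) (L [c]) E)) (N E (L [c]) E E)) (N (L [c]) (N E E (N E (L [c]) E E) E) E E) E) (N (N E E (N E E (N (L [c]) E E E) E) E) E E E)) t17 (N (N E (N (N E (N (N E (L [c]) (N E (L [c]) (L [c]) (L [c])) (L [c])) E (L [c]) (L [c])) E (L [c])) (N (L [c]) E E E) E E) E E) (N (N (N (L [c]) E E E) E E E) E E E) (N E E E (N E E (L [d]) E)) E))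

def t19 : Trie :=
  (N E E (N (N E E (N E E (N E (N E E (N E E (N E E E (L [d, a])) (N E E (L [d, a]) E)) (N E E (L [d, a, a]) (L [d, a, a]))) (N E (N E E (L [d, a, a]) E) E E) (N E (L [d, a, a]) E E)) (N E (N E E E (L [d, a, a])) E E)) E) E (N (N E E E (N E (L [d, a]) E E)) E E E) (N E E (N E E E (L [d, a])) E)) (N (N E E (N E E (N (L [d, a, a, a]) E (N (L [d, a, a]) E E E) (L [d, a, a])) (N (L [d, a, a, a]) E (L [d, a, a]) E)) (N E E (N (L [d, a, a, a]) E E E) (N (L [d, a, a, a]) E E E))) E (N (N E E (L [d, a, a]) (L [d, a, a])) E E (L [d, a])) (N (N E E (L [d, a, a]) (L [d, a, a])) E (L [d, a]) (L [d, a, a]))))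

def t20 : Trie :=
  (N (N E E (N E E E (N (N E (N (N E E (L [d]) E) E E E) E E) E E E)) (N t19 E (N (N E E (N (N E E (L [d]) (L [d])) E E E) (N (L [d, a]) E E (L [d]))) E E (N (L [d]) E E E)) (N (N E E (N (L [d, a]) E E E) E) E (N (L [d]) E E E) E))) (N (N E E (N (N E (N E E (N E (N E E (L [c]) (L [c])) (L [c]) (L [c])) (N (N E E E (L [c])) (N E E (L [c]) (L [c])) (L [c]) E)) (N E (L [c]) E E) E) (N (N E E E (N (N E E (L [c]) (L [c])) E (L [c]) E)) E E E) (N E E (N (L [c]) E E E) E) E) E) E E E) (N (N E E (N (N E E (N (N E E E (L [d])) E E E) (N (N E E (N E E (L [d]) E) E) E (L [d]) (L [d]))) E E (N (L [d]) E (L [d]) E)) (N (N E E (N (N E E (L [d]) (L [d])) E (L [d]) E) (L [d])) E (N (L [d]) E E E) E)) E E (N (N E E (L [d]) E) E (L [d]) E)) (N (N E E (N (N E E (L [d]) (L [d])) E (L [d]) (L [d])) (N (L [d]) E (L [d]) (L [d]))) E (N (N E E (L [d]) (L [d])) E E (L [d])) (N (L [d]) E (L [d]) (L [d]))))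

def t21 : Trie :=
  (N (N (L [a]) (L [a]) (N (L [a]) (L [a]) (N (N E (L [a]) (L [a]) (N E (L [a]) E E)) (L [a]) (L [a]) (N E (L [a]) E E)) (N (L [a, b, a]) (L [a]) E E)) (N (L [a]) (L [a]) (N (L [a]) E E E) (N (L [a]) E E E))) (L [a]) (N (N E (L [a]) (L [a]) (N (N E (L [a]) (L [a]) (L [a])) (L [a]) (L [a]) (L [a]))) (L [a]) (L [a]) (L [a])) (N (N E (L [a]) (N (N E E (L [a]) (N (N E (L [a]) (L [a]) E) (L [a]) (L [a]) E)) E (L [a]) (N (N E (L [a]) (L [a]) E) E (L [a]) E)) (N (N E (L [a]) (N (N E E (N E (N E E E (L [a])) (L [a]) (L [a])) (L [a])) E (L [a]) (L [a])) (N (N E E (L [a]) (L [a])) E (L [a]) (L [a]))) E (L [a]) (L [a]))) (L [a]) (L [a]) (L [a])))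

def t22 : Trie :=
  (N (N (L [a]) (L [a]) (N (L [a]) (L [a]) (N (N E (L [a]) (L [a]) (N E (L [a]) E E)) (L [a]) (L [a]) (N E (L [a]) E E)) (N (L [a, b]) (L [a]) E E)) (N (L [a]) (L [a]) (N (L [a]) E E E) (N (L [a]) E E E))) (N (N (L [a]) (L [a]) (N (L [a]) (L [a]) E E) (N E (L [a]) E E)) (L [a]) (N (N E (L [a]) E E) (L [a]) E E) (N E (L [a]) E E)) (N (N E (N (L [a]) (N (L [a]) E (N (L [a]) E E E) E) (N (L [a]) (N (L [a]) E (L [a]) (L [a])) (L [a]) (L [a])) (L [a])) (L [a]) (N (N E (L [a]) E E) (L [a]) (L [a]) (L [a]))) (N (N (N (L [a]) E (L [a]) (L [a])) E (N (N E E (L [a]) (L [a])) E (L [a]) (L [a])) (L [a])) E (L [a]) (L [a])) (L [a]) (L [a])) (N (N E (L [a]) (L [a]) (N (N E E (L [a]) E) E (L [a]) (L [a]))) (L [a]) (L [a]) (L [a])))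

def t23 : Trie :=
  (N t21 t22 (N (N E (N (L [a]) (N (N (L [a]) (L [a, b, b, a, c]) (L [a]) (L [a])) E (N (L [a, b]) (N (N (L [a]) E E E) E E E) E E) E) (N (L [a]) (N (L [a, b]) E (L [a]) (L [a])) (L [a]) (L [a])) (L [a])) (L [a]) (L [a])) (N (N (N (L [a]) E (N (L [a]) (N (N (L [a]) E (N (L [a]) E E E) E) E E E) E E) (N (L [a]) E E E)) E (N (N E E (L [a]) (L [a])) E (L [a]) (L [a])) (L [a])) E (L [a]) (L [a])) (L [a]) (L [a])) (N (N E (L [a]) (N (L [a]) E (N (L [a]) E (L [a]) E) (N (L [a]) E E E)) (N (L [a]) E (N (L [a]) E E E) (N (L [a]) E E E))) (L [a]) (N (N E E (L [a]) (N (N E E (L [a]) E) E (L [a]) E)) E E E) (N E E E (L [a]))))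

def t24 : Trie :=
  (N (N (L [a]) (L [a]) (N (L [a]) (L [a]) (N (L [a]) (L [a]) (N (L [a]) (L [a]) E E) E) (N (L [a]) (L [a, b]) E E)) (N (L [a]) (L [a]) (N (L [a]) E E (N (L [a]) E E E)) (N (L [a]) E (N (L [a]) E E E) E))) (N (L [a]) (L [a]) (N (N E (L [a]) E E) (L [a]) E E) (N E (L [a]) E E)) (N (N E (L [a]) (N (N E (L [a]) E E) (L [a]) (L [a]) (L [a])) (N (N E (N (N E E (L [a]) E) (L [a]) E E) E E) (L [a]) (L [a]) (L [a]))) E (L [a]) (L [a])) (N (N E (L [a]) (N (N E E (N (N E E (N E E (L [a, b, b, b, a]) E) E) E E E) (N (N E (L [a]) E E) E E E)) E E E) (N E E (L [a]) (L [a]))) (L [a]) (N (N E E (L [a]) (L [a])) E E E) (L [a])))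

def t25 : Trie :=
  (N (N (N (L [a]) (L [a]) (N (L [a]) (L [a]) E E) (N (L [a]) E (N (L [a]) E E (N (L [a]) E E E)) (N (L [a]) E (N (L [a]) E E E) E))) (L [a]) (N (N E (L [a]) E E) (L [a]) E E) E) t24 (N (N E (N (L [a]) (N (L [a]) E (N (L [a]) (N (L [a]) E E E) E E) E) (N (L [a]) (N (L [a]) E (L [a]) (L [a])) (L [a]) (L [a])) (L [a])) (L [a]) (N (L [a]) (L [a]) (L [a]) E)) (N (N (N (L [a]) E (L [a]) (L [a])) E (N (N E E (L [a]) (L [a])) E (L [a]) (L [a])) (L [a])) E (L [a]) (L [a])) (L [a]) (N (N E (L [a]) (L [a]) E) (L [a]) (L [a]) E)) (N (N E (L [a]) (N (L [a]) E (N (L [a]) E (N (L [a]) E E E) E) (N (L [a]) E E E)) (N (L [a]) E (N (L [a]) E E E) (N (L [a]) E E E))) (L [a]) E E))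

def t26 : Trie :=
  (N (N (N E (L [a]) E E) (N E E (N E E (N E E E (L [a])) (N E E (L [a]) E)) (N E E E (L [a]))) (N (N E (L [a, b]) E E) (N E E (L [a]) (L [a])) (N E (L [a]) E E) (N E (L [a, b]) E E)) (N E (L [a]) E E)) (N E (N E E (N E E (N E E E (L [a, b, b])) (N E E (L [a, b, b]) E)) (N E E E (L [a, b, b]))) (N E (N E E (L [a, b, b]) (L [a, b, b])) (N E (L [a, b, b]) E E) (N E (L [a, b]) E E)) (N E (L [a, b, b]) E E)) (N (N E (L [a, b]) E E) E (L [a, b]) (L [a, b])) (N E (L [a, b]) E (L [a])))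

def t27 : Trie :=
  (N (N (N (L [a]) (L [a]) (N (N E (L [a, b]) E E) (L [a]) E E) E) (N (L [a]) (N E (L [a]) (N E (N E E (L [a]) (N E (L [a]) E E)) E E) E) (N (N E (L [a, b]) E E) E (N E E (L [a]) (L [a])) (N E (L [a]) (L [a]) E)) (N E (L [a]) E (L [a]))) (N (N E (L [a]) E E) (N E E (L [a]) (L [a])) E E) (N E (L [a]) E E)) t26 (N (N E (N (L [a]) E (N (L [a]) E E E) E) E E) (N E E (L [a]) (L [a])) E E) (N E (L [a]) E E))

def t28 : Trie :=
  (N (N E (N (N E (N (L [a]) (L [a, b, b, c]) (L [a]) (L [a])) (L [a]) (L [a])) (N (N (N (L [a]) (L [a, b, b, c]) (L [a]) (L [a])) (L [a, b, b, c]) (L [a]) (L [a])) E (N (N E (L [a]) E E) (L [a]) E E) (N E (L [a]) E E)) (N (L [a]) (N (N (L [a]) E E E) E (L [a]) (L [a])) (L [a]) (L [a])) (L [a])) (L [a]) (L [a])) (N (N (N (N (N (L [a]) E (L [a]) (L [a])) (L [a, b, b, c]) (L [a]) (L [a])) E (N (N E (L [a, b]) E E) (L [a]) E E) E) E (N (N E E (L [a]) (L [a])) E (L [a]) (L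 [a])) (L [a])) E (L [a]) (L [a])) (L [a]) (L [a]))

def t29 : Trie :=
  (N t23 (N t25 t27 (N (N E (N (L [a]) (N (N (L [a]) E (L [a]) (L [a])) E (N (L [a, b]) E E E) E) (N (L [a]) (N (L [a, b]) E (L [a]) (L [a])) (L [a]) (L [a])) (L [a])) (L [a]) (L [a])) (N (N (N (N (L [a]) E (L [a]) (L [a])) E (N (L [a]) E E E) (N (L [a]) E E E)) E (N (N E E (L [a]) (L [a])) E (L [a]) (L [a])) (L [a])) E (L [a]) (L [a])) (L [a]) (L [a])) (N (N E (L [a]) (L [a]) (L [a])) (L [a]) (L [a]) (L [a]))) t28 (N (N E (L [a]) (L [a]) (L [a])) (L [a]) (L [a]) (L [a])))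

def t30 : Trie :=
  (N (N (N (L [a]) E (N (L [a]) E E E) (N (L [a]) E E E)) (N (L [a]) (N E E (N (L [a, b]) E E E) E) (N (L [a]) E E E) (N (L [a]) E (N (L [a]) E E E) E)) (N (N E (N E (L [a]) (N E (L [a]) E E) E) E (L [a])) (N (N E E (L [a]) E) E E E) E (N (L [a]) E E E)) (N (L [a]) E (N (L [a]) E E (N (L [a]) E E E)) (N (L [a]) E (N (L [a]) E E E) E))) (N (N (N E E (N (L [a, b]) E E E) E) (N E (L [a, b, b]) (N E (L [a, b]) E E) E) E E) (N (N (L [a, b, b]) (N E E (N E E (L [a, b, b]) E) E) (N (L [a, b]) E E E) E) E E E) (N (N E (N E (L [a, b]) E E) E E) E E E) E) (N (N E (L [a]) E E) (N (N (L [a]) E (L [a, b]) E) E E E) E E) E)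

def t31 : Trie :=
  (N (N (N (L [a]) E (N (N E E E (N (L [a]) E E E)) E E E) (N (L [a, b, b]) E E E)) (N (L [a]) (N (L [a]) E (N (L [a]) E E E) E) (N (N E (N E (L [a]) E E) E (N (L [a]) E E E)) (N (N (L [a]) E (L [a]) E) E E E) E E) (N (L [a, b, b]) E E E)) (N (N E (L [a]) E E) (N (N (L [a]) E (L [a]) E) E E E) E E) (N (L [a]) E (N (L [a]) E E E) (N (L [a]) E E E))) t30 (N (N E (N (L [a]) (N (L [a]) E (L [a]) (L [a])) (L [a]) E) E E) (N (N (N (L [a]) E (L [a]) (L [a])) E (N (L [a]) E E E) E) E E E) E E) E)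

def t32 : Trie :=
  (N (N (L [a, b]) (N E (L [a, b]) (N (N E (N E E (N E (L [a, b]) E E) E) E E) (L [a, b]) E E) E) E (N E E (N E E E (L [a])) (L [a, b]))) (N (N (L [a, b]) (N E (L [a, b, b]) (N E (L [a, b, b]) E E) E) (N (L [a, b]) (N (L [a, b]) E E E) E (L [a, b])) (N E E (L [a, b]) (L [a, b]))) (N (N (L [a, b, b]) (N E E (N (L [a, b, b]) E E E) E) (N (L [a, b, b]) E E E) E) (N (L [a, b, b, b]) (N E (L [a, b, b, b]) (N E (L [a, b, b, b]) E E) E) (N (L [a, b, b]) E E E) E) (N E (N (L [a, b, b]) E E E) E E) E) E (N (L [a, b]) E E E)) E (N (L [a, b, b]) E E E))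

def t33 : Trie :=
  (N (N (N E (N E E (N (L [a, b, b]) E E E) E) (N (L [a, b, b]) (N (L [a, b, b]) E E E) E E) (N E E (L [a, b, b]) E)) (N (L [a, b, b]) (N (L [a, b, b, b]) (L [a, b, b, b]) (N (L [a, b, b, b]) (L [a, b, b, b]) E E) E) (N (L [a, b, b]) (N (L [a, b, b]) E E E) E E) E) (N E (N (N E E (L [a, b, b]) E) E E E) E E) E) (N (N (N (L [a, b, b, b]) (L [a, b, b, b]) (N (L [a, b, b]) (L [a, b, b, b]) E E) (L [a, b, b, b])) (N (L [a, b, b, b]) (L [a, b, b, b, b]) (N E (L [a, b, b, b]) E E) E) E E) (N (N (L [a, b, b, b]) E E E) E E E) E E) (N E E (L [a, b, b, b]) (N E (L [a, b, b]) (L [a, b, b]) E)) (N E (L [a, b, b, b]) (N E E E (L [a, b, b])) (L [a, b, b])))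

def t34 : Trie :=
  (N t32 (N t33 (N (N (N (N (L [a, b, b, b]) E E (L [a, b, b, b])) (N (N E E (N E E E (L [a, b, b, b, b])) (N E E (L [a, b, b, b, b]) E)) E E E) E E) E E E) E E E) (N (N E E (N (L [a, b, b]) E (N (L [a, b, b]) E E E) (N (L [a, b, b]) E E E)) (N (L [a, b, b]) E (N (L [a, b, b]) E E E) E)) E E E) (N (L [a, b, b, b]) E E E)) (N (N E (L [a, b, b]) (L [a, b]) (L [a, b])) (N (N (L [a, b, b]) E (N (L [a, b, b]) E (N (L [a, b, b]) E E E) (N (L [a, b]) E E E)) (N (L [a, b, b]) E E E)) E E E) (N (N E (N (L [a, b]) E E E) (N (L [a, b]) E E E) E) E E E) (N (L [a, b]) (N (N (L [a, b]) E E E) E E E) E E)) (N (L [a, b]) (N (L [a, b, b]) E E E) (N (L [a, b]) E E E) (N (L [a, b]) E E E)))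

def t35 : Trie :=
  (N (N E (N (L [a]) (N (N (L [a]) (N (L [a]) E (N (L [a]) E E E) E) (N (L [a]) E E E) E) E E E) (N (N E (N (L [a]) (N (L [a]) E E E) E E) E E) (N (N (N (L [a]) E E E) E E E) E E E) E E) (N (L [a]) E E E)) (N (L [a]) (N (N (L [a]) E (N (L [a]) E (N (L [a]) E E E) E) (N (L [a]) E E E)) E E E) E (N (L [a]) E E E)) (N (L [a]) (N (L [a]) E E E) (N (L [a]) E E E) E)) (N (N (N (L [a]) E E E) E E E) E E E) E E)

def t36 : Trie :=
  (N t31 (N t34 (N (N (N (N (N (N E E (N E E E (L [a, b, b, b])) E) E E E) (N (N E E (N E E (L [a, b, b, b, b]) E) E) E E E) E E) E E E) E E E) E E E) E E) t35 (N (N E (N (L [a]) (N (L [a]) (N (N (L [a]) E E E) E E E) E E) E E) (N (L [a]) E (N (L [a]) E E E) (N (L [a]) E E E)) (N (L [a]) E (N (L [a]) E E E) (N (L [a]) E E E))) (N (N (N (L [a]) (N (N (L [a]) E E E) E E E) E E) E E E) E E E) E E))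

def t37 : Trie :=
  (N E (N (L [a]) (N (N (L [a]) (N (L [a]) E (N (L [a]) E E E) E) (N (L [a]) E E E) E) (N (N (N E E E (L [a])) E E E) E E E) E E) (N (N E (N (L [a]) E (N (L [a]) E E E) (N (L [a]) E E E)) (N (L [a]) (N (L [a]) E (N (L [a]) E E E) E) (N (L [a]) E E E) (N (L [a]) E E E)) (N (L [a]) (N (L [a]) E E E) (N (L [a]) E E E) E)) E E E) (N (L [a]) (N (N (L [a]) E E E) E E E) E E)) (N (L [a]) (N (N (L [a]) E (N (L [a]) E (N (L [a]) E E E) (N (L [a]) E E E)) (N (L [a]) E E E)) E E E) (N (N E (N (L [a]) E E E) E E) E E E) E) (N (L [a]) (N (L [a]) E E E) E E))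

def t38 : Trie :=
  (N (N E (N t37 (N (N (N (L [a]) (N (N (L [a]) E E E) E E E) E E) E E E) E E E) E E) (N (N E (N (L [a]) E E E) (N (L [a]) E E E) (N (L [a]) E (N (L [a]) E E E) E)) E E E) (N (N E (N (L [a]) E E E) (N (L [a]) E (N (L [a]) E E E) E) (N (L [a]) E E E)) E E E)) (N (N (N (N (N (L [a]) E (N (N E E E (N (L [a]) E E E)) E E E) (N (N E E (N (L [a]) E E (N (L [a]) E E E)) (N (L [a]) E E E)) E E E)) E E E) E E E) E E E) E E E) E E)

def t39 : Trie :=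
  (N E (N (N E (N (L [a]) E (N (L [a]) E E E) (N (L [a]) (N (N (L [a]) E E E) E E E) E E)) (N E (N (L [a]) E E E) E E) (N E (N (L [a]) E E E) E E)) E E E) (N (N E E (N (L [a]) (N (L [a]) E E E) (N (L [a]) E E E) (N (L [a]) E E E)) (N (L [a]) (N (L [a]) E E E) (N (L [a]) E E E) E)) E E E) (N (N E (N (L [a]) E E E) (N (L [a]) E (N (L [a]) E (N (L [a]) E E E) E) (N (L [a]) E E E)) (N (L [a]) E (N (L [a]) E E E) (N (L [a]) E E E))) E E E))

def t40 : Trie :=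
  (N (N E E (N E E E (N E E (N E E E (L [c])) E)) (N E E (N E E E (L [c])) (N E E (L [c]) E))) E (N (N E E (N (N E E (N (L [c]) E E E) E) E E E) (N (N E (L [c]) E E) E E E)) (N E E (N E (N E E (N E E (N E (L [c, b, b, b]) (L [c, b, b, b]) E) (N E (L [c, b, b, b]) E E)) (N E E E (L [c, b, b, b]))) (N E (N E E (L [c, b, b]) (L [c, b, b])) E (L [c, b, b])) (N E E (L [c, b, b]) E)) E) (N E (N E E (N E (L [c, b, b]) E E) E) (N E (L [c, b]) E E) E) (N E (N E E (L [c, b]) E) E E)) E)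

def t41 : Trie :=
  (N (N E E (N (N E E (N (N E E (L [c]) (L [c])) E (L [c]) E) (L [c])) (N E E (N E E (L [c]) (L [c])) (L [c])) (N E (N E E (N E (L [c, b, a]) (L [c, b, a]) (L [c])) (L [c])) (N E (L [c, b, a]) E E) (N E (L [c]) E E)) (N E (L [c]) E E)) (N (N E E (L [c]) (L [c])) (N E E (L [c]) (L [c])) E E)) t40 (N (N E E (N (N E (N E E (L [c]) E) (L [c]) (L [c])) E (L [c]) E) (N (N E (L [c]) E E) (L [c]) E E)) (N E E (N E (N E E (L [c]) (L [c])) (L [c]) (L [c])) (N E (L [c]) (L [c]) (L [c]))) (N E (N E E (L [c]) (L [c])) (L [c]) (L [c])) (N E (L [c]) (L [c]) E)) (N (N E (N (N E (N (N E (N E E E (N E E E (L [c]))) (N E (N E E (L [c]) (L [c])) (L [c]) (L [c])) (L [c])) E (N (N E (L [c]) E E) E E E) (N (N E (N (L [c]) (L [c]) E E) E E) (L [c]) E E)) E (L [c])) E E E) E E) (N E E E (L [c])) (N E E E (L [c])) E))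

def t42 : Trie :=
  (N E E (N (N E E (N (N E (L [c]) (N E E (N (L [c]) E E E) E) (N E E (N (L [c]) E E E) E)) (L [c]) (N E (L [c]) (L [c]) (N E (L [c]) E E)) (N E (L [c]) (L [c]) E)) (N (N E (N E (L [c]) E E) (N E E (N (L [c]) E E E) E) E) (L [c]) E E)) E (N (N E E (L [c]) (L [c])) E (L [c]) (L [c])) (N (N E (L [c]) (L [c]) E) E (L [c]) E)) (N (N E (L [c]) (N (L [c]) E (L [d]) (L [d])) (N (L [c]) E (L [d]) (L [d]))) E (N (L [d]) E E (L [c])) (N (N E E (L [c]) (L [c])) E (L [c]) (L [c]))))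

def t43 : Trie :=
  (N t42 (N (N E E (N (N E (N E E (N E (N E E (L [c]) (L [c])) (L [c]) (L [c])) (N (N E E E (L [c])) (N E E (L [c]) (L [c])) (L [c]) E)) (L [c]) E) (N (N E E E (N (N E E (L [c]) (L [c])) E (L [c]) E)) E E E) E E) E) E E E) (N (N E E (N (N E E (L [c]) (L [c])) E E (N (L [d]) E (L [c]) E)) (N (N E E (L [c]) (L [c])) E (N (L [d]) E E E) (L [c]))) E E (L [c])) (N (N E E (N (L [c]) E (L [c]) (L [c])) (N (L [c]) E (L [c]) (L [c]))) E (L [c]) (L [c])))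

def t44 : Trie :=
  (N (L [a]) (N (L [a]) (N (N (L [a]) (N (L [a]) E E E) (N (L [a]) E E E) E) E E E) (N (N E E (N (L [a]) E (N (L [a]) E E E) (N (L [a]) E E E)) (N (L [a]) E (N (L [a]) E E E) E)) E E E) (N (L [a]) E E E)) (N (L [a]) (N (N (L [a]) E (N (L [a]) E (N (L [a]) E E E) (N (L [a]) E E E)) (N (L [a]) E E E)) E E E) (N (N E (N (L [a]) E E E) (N (L [a]) E E E) E) E E E) (N (L [a]) (N (N (L [a]) E E E) E E E) E E)) (N (L [a]) (N (L [a]) E E E) (N (L [a]) E E E) (N (L [a]) E E E)))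

def t45 : Trie :=
  (N E (N (L [a]) (N (N (L [a]) (N (L [a]) E (N (L [a]) E E E) E) (N (L [a]) E E E) E) E E E) (N (N E (N (L [a]) (N (L [a]) E E E) E E) E E) (N (N (N (L [a]) E E E) E E E) E E E) E E) (N (L [a]) E E E)) (N (L [a]) (N (N (L [a]) E (N (L [a]) E (N (L [a]) E E E) E) (N (L [a]) E E E)) E (N E E (N E E (L [d]) E) (L [d])) (N E E (L [d]) (L [d]))) (N E (N E E (L [d]) (L [d])) (L [d]) (L [d])) (L [d])) (N (L [a]) (N (L [a]) E E (L [d])) (L [d]) (L [d])))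

def t46 : Trie :=
  (N (L [a]) (N t44 (N (N (N (L [a]) E E E) E E E) E E E) E E) (N t45 (N (N (N (L [a]) E E E) E E E) E (N (N E E E (N E E (L [d]) (L [d]))) (N E E (N E E E (L [d])) (N E E (L [d]) (L [d]))) (N E (N E E (L [d]) (L [d])) (L [d]) (L [d])) (L [d])) (N (N E E (N (N E E (L [d]) (L [d])) E (L [d]) E) (L [d])) (N E E E (L [d])) (L [d]) (L [d]))) (N (N E (N (N E E (L [d]) (L [d])) E E (L [d])) (L [d]) (L [d])) (N E E (L [d]) (L [d])) (L [d]) (L [d])) (L [d])) (N (N E (N (L [a]) (N (L [a]) (N (N (L [a]) E E E) E E E) E E) E E) (N (L [a]) E (L [d]) (L [d])) (L [d])) (N (N (N (L [a]) (N (N (L [a]) E E E) E E E) E E) E (N E E (L [d]) (L [d])) (N E E (L [d]) (L [d]))) E E (L [d])) (L [d]) (N (L [d]) E (L [d]) E)))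

def t47 : Trie :=
  (N (N E (N (N E (N E E (N (N E E (L [d]) (L [d])) E (L [d]) (L [d])) (L [d])) (L [d]) (L [d])) (N (N E (N E E E (N E E E (L [d]))) (N E (N E E (L [d]) (L [d])) E E) (L [d])) (N (N E E (N E E E (L [d])) (N E E (L [d]) E)) E (N E E E (L [d])) (L [d])) (L [d]) (L [d])) (L [d]) (L [d])) (L [d]) (L [d])) (N (N (N (N E E E (L [d])) (N (N E E (N E E E (L [d])) (N E E (L [d]) E)) E E (L [d])) (L [d]) (L [d])) E (L [d]) (L [d])) E (L [d]) (L [d])) (L [d]) (L [d]))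

def t48 : Trie :=
  (N t46 (N (N (N (N (N (L [a]) E E E) E E E) E E E) (N (N E (L [b]) (N E (N E E E (N E (L [b]) E E)) E E) E) (L [b]) (N E (L [b]) (N E E (N E (L [b]) E E) E) (N E (N E E (L [b]) E) E E)) (N E (L [b]) E E)) E E) (L [b]) (N E (N E E (L [b]) (N E (L [b]) E E)) E E) E) (N (N E t47 (L [d]) (L [d])) (N (N (N (N (N (N E E (N E E (L [d]) (L [d])) (L [d])) E (L [d]) (L [d])) E (L [d]) (L [d])) E (L [d]) (L [d])) E (L [d]) (L [d])) E (N (L [d]) E E (N (L [d]) E E E)) (N (L [d]) E (N (L [d]) E E E) E)) (N (L [d]) (N (L [d]) E E E) (N (L [d]) E E E) E) (N (L [d]) (N (L [d]) E E E) E E)) (N (N E (L [d]) (L [d]) (N E E (L [d]) (L [d]))) (N (L [d]) E (N (L [d]) E E E) (N (L [d]) E E E)) (N (L [d]) E E E) (N (L [d]) E E E)))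

def t49 : Trie :=
  (N (N (N (L [d]) E (N (L [d]) (N (L [d]) E E E) E E) (N (L [d]) E E E)) E (N (N E E (N E (L [d]) (N E (L [d]) E E) E) E) E (N (N E (L [d]) E E) E (L [d]) (L [d])) (L [d])) (N (N E E (N (L [d]) E E (L [d])) (N (L [d]) E (L [d]) E)) E (L [d]) (L [d]))) E (N (N E E (L [d]) (L [d])) (N E E (L [d]) (L [d])) (N E (L [d]) (N E (L [d]) E E) E) (N (L [d]) (L [d]) E E)) (N (L [d]) (L [d]) (N (L [d]) E E E) E))

def t50 : Trie :=
  (N (N E (N (N E (N (L [a]) (L [d]) (L [d]) (N (L [a]) (L [d]) (L [d]) (L [d]))) (L [d]) (L [d])) (N (L [d]) E (N (L [d]) (N (L [d]) E E E) E E) E) (N (L [d]) (N (L [d]) E (L [d]) (L [d])) (L [d]) (L [d])) (L [d])) (N (N E (L [d]) (N (L [a]) E E E) (N (L [a]) E (L [d]) (L [d]))) (L [d]) (N E (L [d]) (L [d]) (L [d])) (L [d])) (N (N E (N (L [a]) (L [d]) E E) (N (L [a]) E (N (L [d]) E E E) E) (N (L [a]) E E E)) (L [d]) E E)) t49 (N (N E (L [d]) (L [d]) (L [d])) (N (L [d])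 E E E) (N (L [d]) E E E) E) (N (N E (L [d]) (L [d]) E) (N (L [d]) E E E) (N E E E (L [d])) E))

def t51 : Trie :=
  (N (N E (N (N E (L [d]) (N E (L [d]) E E) (N E (L [d]) E E)) (N (L [d]) (N (L [d]) E E E) E E) E E) (N (N E E (N (L [a]) (N (L [a]) E E (N E E E (L [d]))) (L [d]) (L [d])) (N (L [a]) (N (L [a]) E (L [d]) (L [d])) (L [d]) (L [d]))) E (N (N E E (L [d]) (L [d])) E (L [d]) (L [d])) (L [d])) (N (N E (N (L [a]) E E E) (L [d]) (L [d])) E (L [d]) (L [d]))) (N (N (N (L [d]) (N (L [d]) E E E) E E) E (L [d]) (L [d])) E (N (L [d]) E E E) (N (L [d]) E E E)) (N (N E E (L [d]) (L [d])) E E (L [d])) (N (L [d]) E (L [d]) (L [d])))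

def t52 : Trie :=
  (N (N (N E (N E (L [b]) (N (N E (N E (N E E (L [b]) E) E E) E E) (N (N E E (L [b]) E) E E E) E E) E) E E) (L [b]) E E) (L [b]) (N (N E (L [b]) (N (L [d]) (N (L [d]) E (N (L [d]) (L [b]) (L [b]) (L [d])) (N E E (L [d]) (L [d]))) (N (L [d]) (N E E (L [d]) (L [d])) (L [d]) (L [d])) (L [d])) (N (L [d]) (N (L [d]) E E (L [d])) (L [d]) (L [d]))) (L [b]) (N (N E (N (N E E (L [b]) E) (L [b]) E (L [d, b, a])) (L [d]) (L [d])) (L [b]) (N (L [d]) (L [b]) E E) E) (N (N E (N (N E (N (N E E (L [d]) E) E E E) (L [d]) E) (L [b]) E E) (L [d]) E) (L [b]) E E)) (N (N E (N (L [d]) (L [b]) E E) (N (N E E (L [d]) (N E (L [d]) E E)) E (L [d]) (N (N E (L [d]) (L [d]) E) E (L [d]) E)) (N (N E (L [d]) (N E E (N E E (L [d]) (L [d])) (N E E (L [d]) E)) (N E E (L [d]) (L [d]))) E (N (N E E (L [d]) (L [d])) E E (L [d])) (L [d]))) (L [b]) (N (L [d]) E E (N (L [d]) E E E)) (N (L [d]) E (N (L [d]) E E E) E)))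

def t53 : Trie :=
  (N (N E (L [b]) (N (N E (L [b]) E E) (L [b]) (N E (L [b]) (L [b]) (L [d])) (L [d])) (N (N E (N (N E E (L [b]) E) (L [b]) E E) E E) (L [b]) E E)) (N (L [b]) E (N (L [b]) (N E E (N E (L [b]) E E) (N E (L [b]) E E)) (N (L [b]) E E E) (N (L [b]) E E E)) (N (L [b]) E (N (L [b]) E E E) E)) (N (N E (L [b]) (L [b]) (L [d])) (N (L [b]) E E E) (N (L [b]) E E E) E) (N (N E (L [b]) (L [d]) E) (N (L [b]) E E E) E E))

def t54 : Trie :=
  (N E (N (N E (L [d]) (N (N E (L [d]) (L [d]) (N E (L [d]) E E)) (L [d]) (L [d]) E) (N (N E (L [d]) E E) (L [d]) E E)) (N (L [d]) E (L [d]) (L [d])) (L [d]) (N (N E E E (L [d])) (L [d]) (L [d]) (L [d]))) (N (N E (N (N E (N E E E (L [d])) E E) (N E E (L [d]) (L [d])) E E) E E) (N (N (N E E (L [d]) (L [d])) E (L [d]) (L [d])) E (L [d]) (L [d])) E (L [d])) (N (N E E (N (L [d]) E (L [d]) E) (L [d])) (N E E (L [d]) (L [d])) (L [d]) (L [d])))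

def t55 : Trie :=
  (N (N E (N (N E (N E E E (N (N E E E (L [d])) E E (L [d]))) (N E (L [d]) E E) (N E (N (L [d]) E E E) E E)) (N (N E (L [d]) E E) (L [d]) E E) E E) (N (N E E (L [d]) (L [d])) E (L [d]) (L [d])) (L [d])) (N (N (N (N E (L [d]) E E) (L [d]) E E) (L [d]) (L [d]) (L [d])) E (N (L [d]) E E E) (N (L [d]) E E E)) (N (L [d]) E E (N (L [d]) E (N E E E (N E E (N E E E (L [d])) E)) E)) (L [d]))

def t56 : Trie :=
  (N (N (L [a]) t48 t50 t51) (N t52 (L [b]) t53 (N (N E (L [b]) (N (N E E (N (L [d]) E (L [d]) (L [d])) (N (L [d]) E (L [d]) (L [d]))) E E (L [d])) (N (N E E (L [d]) (L [d])) E (L [d]) (L [d]))) (N (L [b]) E (N (L [b]) E E E) (N (L [b]) E E E)) (N (N E E (L [d]) (L [d])) E E E) (N (L [d]) E E E))) (N t54 (N (N (N (L [d]) E (L [d]) (L [d])) E (L [d]) (L [d])) E (N (L [d]) E (N (L [d]) E E E) (N (L [d]) E E E)) (N (L [d]) E (N (L [d]) E E E) E)) (N (N E (L [d]) (L [d]) (L [d])) (N (L [d])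 E E E) E E) (N (L [d]) (N (L [d]) E E E) E E)) t55)

def t57 : Trie :=
  (N (L [a]) (N (L [a]) (L [c]) (L [c]) (N (L [a]) E (L [c]) (N (L [a]) E E E))) (N (L [a]) (N (L [a]) E (N (L [a]) (L [c]) (N E (L [c]) (N E (L [c]) E E) E) (N (L [a]) (L [c]) E E)) (N (L [a]) (L [c]) (N (L [a]) E E E) E)) (N (L [a]) (N (L [a]) E E E) (N (L [a]) E E E) E) (N (L [a]) (N (L [a]) E E E) (N E E E (L [c])) E)) (N (L [a]) (N (L [a]) E (N (L [a]) E E E) (N (L [a]) E E E)) (N (L [a]) E E (L [c])) (N (L [a]) E (L [c]) E)))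

def t58 : Trie :=
  (N E (N (N E (N E E E (N (N E (N (N E (N (N E E (N E E (N E (N E E (N E (N E E E (L [c, a, c])) (L [c, a, c]) (L [c, a, c])) (L [c, a, c])) (L [c, a, c]) (L [c, a, c])) (N E (N E E (L [c, a, c]) (L [c, a, c])) (L [c, a, c]) E)) (N E E E (L [c, a, c]))) E (N (N E (N (N E E (N (N E E E (L [c, a, c])) E E E) (N (N E E (L [c, a, c]) E) E E (L [c, a, c]))) E E (L [c, a, c])) E E) E E E) (L [c, a, c])) E E) E E E) E E) E E E)) E E) E E E) E (L [c]))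

def t59 : Trie :=
  (N t57 (L [c]) (N (N E (N (N E (L [c]) (N (N E (L [c]) (L [c]) (N E (L [c]) E E)) (L [c]) (L [c]) E) (N (N E (L [c]) E E) (L [c]) E E)) E (L [c]) (N (N E E E (L [c])) (L [c]) (L [c]) (L [c]))) (L [c, a, c]) (L [c])) (L [c]) (L [c]) (L [c])) (N (N E (N (N E (N E E E (N t58 E E (L [c]))) (L [c]) (L [c])) (N (N E (L [c]) E E) E E E) E E) (L [c]) (N (L [c]) E (L [c]) (N (L [c]) E E E))) (N (N (N (N E (L [c]) E E) (L [c]) E E) E (L [c]) (L [c])) E (L [c]) (L [c])) (L [c]) (N (N E E (L [c]) E) E E E)))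

def t60 : Trie :=
  (N (N (L [a]) t59 (N (L [c]) (N (N (L [c]) E (N (L [c]) E (N (N E (N (L [c]) E E E) E E) E E (L [c])) (N (N E (N (L [c]) E E E) E E) E (L [c]) E)) (N (L [c]) E (N E E E (L [c])) (L [c]))) E (N (N E E (L [c]) (L [c])) (L [c]) (L [c]) (L [c])) (N (N E E (L [c]) (L [c])) (L [c]) (L [c]) (L [c]))) (L [c]) (L [c])) (N (L [c]) (N (N (L [c]) (N (L [c]) E E E) (L [c, a]) (L [c])) E (L [c]) (L [c])) (L [c]) (L [c]))) (N (N (L [c]) (N (L [c]) (N E (L [c]) (N E (L [c]) E E) (N E (L [c]) E E)) (L [c]) (L [c])) (L [c]) (L [c])) (N (N (N E (L [c]) (N E (L [c]) E E) E) (L [c]) (L [c]) (L [c])) (L [c]) (L [c]) (L [c])) (L [c]) (L [c])) (L [c]) (L [c]))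

def t61 : Trie :=
  (N (N E (L [c]) (N (N E (N (L [a]) (L [c]) E E) (N (L [a]) E E E) (N (L [a]) E E E)) (N (N (N E E (L [c]) E) E (L [c]) (N (N E (L [c]) (L [c]) E) E E E)) E (L [c]) (N E E (L [c]) E)) (N E (N E E E (N E (L [c]) E E)) E E) E) (N (N E (N (L [a]) E E E) (N (L [a]) E E E) (N (L [a]) E E E)) (N (N E (L [c]) E E) E E E) E E)) (L [c]) (N (N E (L [c]) (N E (L [c]) E E) E) (L [c]) (N E (L [c]) E E) (N E (L [c]) E E)) (N (N E (N (N E (L [c]) E E) (L [c]) E E) E E) (L [c]) E E))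

def t62 : Trie :=
  (N E (N (N E (N (L [a]) E (L [c]) (N (L [a]) (L [c]) E (N (L [a]) E E E))) (N E (N (L [a]) E (N (L [a]) E E E) (N (L [a]) E E E)) E E) (N E (N (L [a]) E E E) E E)) (L [c]) E E) (N (N E E (N (L [a]) (N (L [a]) E E E) E E) (N (L [a]) (N (L [a]) E E E) E E)) E E E) (N (N E (N (L [a]) E E E) (N (L [a]) E (N (N E E (N (L [a]) E E E) E) E E E) (N (N E (L [a]) (N (L [a]) E E E) E) E E E)) (N (L [a]) E E E)) E E E))

def t63 : Trie :=
  (N (N E (N (N E (N (L [c]) (N (N (L [c]) (N (L [c]) E (N (L [c, a]) E E E) E) (N (L [c]) E E E) E) E E E) E E) E E) (N (N (N (N (L [c]) (N (L [c]) (N E E (N (L [c, a]) E E E) E) (N (L [c]) (N (L [c, a]) E E E) E E) E) (N (L [c]) E E E) E) (N (N (N E E (N (L [c]) E E E) (N (L [c]) E E E)) E E E) E E E) E E) E E E) E E E) E E) E E) (N (N (N (N (N (L [c]) E E E) E E E) E E E) E E E) E E E) (N E E (L [c]) (L [c])) (N E (N E E (L [c]) E) (L [c]) E))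

def t64 : Trie :=
  (N (N E (N (L [c]) (N (N (L [c]) (L [c]) (N (N E (L [c]) E E) (L [c]) E E) (N E (L [c]) E E)) E (L [c]) (N E (L [c]) E E)) t63 (N E E E (L [c]))) (N (L [c]) (N (N (L [c]) E (L [c]) (L [c])) E (L [c]) (L [c])) (L [c]) (L [c])) (L [c])) (N (N (N (N (L [c]) (L [c]) (N (N E (L [c]) E E) (L [c]) E E) E) E (N (N E (L [c]) E E) (L [c]) E E) E) E (L [c]) (N (N E (L [c]) E (N (N E E (N E E (L [c]) (L [c])) E) E (L [c]) E)) E (N E E E (L [c])) (L [c]))) E (L [c]) (L [c])) (N (N E (L [c]) (N (N E (L [c]) E E) (L [c]) E E) (N E (L [c]) E E)) (L [c]) (N E (L [c]) E E) (L [c])) (N (N E (N (L [c]) (L [c]) E E) (N (L [c]) E E E) E) (L [c]) (L [c]) E))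

def t65 : Trie :=
  (N (N (N (L [c]) (N (L [c]) (N (L [c]) E E E) (L [c]) (L [c])) (L [c]) (L [c])) (N (N (N (L [c]) E E (N (L [c]) E E E)) (L [c]) (L [c]) (L [c])) (L [c]) (L [c]) (L [c])) (L [c]) (L [c])) (N (N (L [c]) (N (L [c]) (L [b]) (L [c]) (L [c])) (L [c]) (L [c])) (L [b]) (L [c]) (L [c])) t64 (N (N E (N (L [c]) E E E) (L [c]) (L [c])) (N (N E (N (N E (L [c]) E E) E E E) (L [c]) (L [c])) E (L [c]) (L [c])) (N (N E E (L [c]) (L [c])) E E (L [c])) (N (N E E (L [c]) (L [c])) E (L [c]) E)))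

def t66 : Trie :=
  (N (N (L [a]) t60 t61 (N t62 (L [c]) E E)) (N t65 (L [b]) (N (N E (L [c]) (L [c]) (L [c])) (L [c]) (L [c]) (L [c])) (N (N E (L [c]) (L [c]) (L [c])) (L [c]) (L [c]) (L [c]))) (N (N E (L [c]) (N (N E (L [c]) (N (N E E (L [c]) E) E (L [c]) E) (N (N E (L [c]) E E) E E E)) (L [c]) (L [c]) (N E (L [c]) E E)) (N (N E (L [c]) E E) (L [c]) E E)) (L [c]) (L [c]) (N (N E (L [c]) E E) (L [c]) (N E E E (N E E (N E E E (N E E (L [c]) E)) E)) E)) (N (N E (L [c]) E E) (L [c]) E E))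

def root : Trie := (N (N E t16 t18 t20) (N (N t29 (N t36 (N (N (N (N (N (N E E (N E E (L [a, b, b, b, b]) E) E) E E E) E E E) E E E) E E E) E E E) E E) t38 (N t39 E E (N E E E (L [c])))) E t41 t43) t56 t66)

def holes : List Bd :=
  [⟨338744, 371479, 261908, 295251, 49951971428, 52553614483, 13385844505, 14119385517⟩,
   ⟨212813, 233551, 164524, 185636, 31393382040, 33041540827, 8412709403, 8877159173⟩,
   ⟨584242, 604980, 164524, 185636, 60913410612, 62561603460, 16035537974, 16499996540⟩,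
   ⟨738553, 751752, 103311, 116736, 67803458099, 68852401704, 17701059584, 17996398296⟩,
   ⟨133655, 146854, 103311, 116736, 19727982997, 20776923358, 5286738767, 5582076642⟩,
   ⟨367125, 371479, 112311, 116736, 38283429527, 38629444483, 10094717302, 10192055517⟩,
   ⟨513941, 518282, 112325, 116736, 49951971428, 50296906514, 13107859149, 13204893486⟩,
   ⟨83900, 92358, 64835, 73427, 12395446455, 13067642766, 3321842938, 3510857234⟩,
   ⟨835550, 844008, 64835, 73427, 72134345090, 72806529816, 18747958881, 18936970184⟩,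
   ⟨602081, 604980, 70492, 73427, 53578898560, 53809301460, 13966829447, 14031398540⟩,
   ⟨230652, 233551, 70492, 73427, 24058869988, 24289238827, 6344000875, 6408561173⟩,
   ⟨312367, 315266, 365692, 368627, 53578898560, 53809301882, 14515429447, 14579998118⟩,
   ⟨322937, 325828, 70500, 73427, 31393382040, 31623137956, 8237975749, 8302362044⟩,
   ⟨694365, 697256, 70500, 73427, 60913410612, 61143121112, 15860804322, 15925178888⟩,
   ⟨896519, 901998, 40650, 46204, 74856616914, 75292007046, 19406009868, 19528192954⟩,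
   ⟨52625, 58104, 40649, 46204, 7786423486, 8221843608, 2086765562, 2208956392⟩,
   ⟨144869, 146854, 44205, 46204, 15117718278, 15275427358, 3986407692, 4030372642⟩,
   ⟨567660, 569646, 229759, 231759, 63193193380, 63350957142, 16745562795, 16789542858⟩,
   ⟨196232, 198217, 229760, 231759, 33673164808, 33830894509, 9122734224, 9166705491⟩,
   ⟨749767, 751752, 44205, 46204, 63193193380, 63350905704, 16400728509, 16444694296⟩,
   ⟨807775, 809754, 44211, 46204, 67803458099, 67960730658, 17591227002, 17635069342⟩,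
   ⟨202877, 204856, 44211, 46204, 19727982997, 19885252312, 5176906186, 5220747688⟩,
   ⟨728132, 729542, 144316, 145727, 69236464410, 69348515534, 18147360900, 18178384466⟩,
   ⟨494662, 496072, 144317, 145727, 50681017880, 50793020344, 13355868655, 13386879656⟩,
   ⟨123234, 124644, 144316, 145727, 21160989308, 21273037188, 5733040083, 5764062812⟩,
   ⟨356703, 358113, 144317, 145727, 39716435839, 39828452901, 10524532328, 10555547099⟩,
   ⟨842598, 844008, 27683, 29093, 69236464410, 69348477816, 17930607920, 17961622184⟩,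
   ⟨90948, 92358, 27683, 29093, 9497565775, 9609590766, 2504491978, 2535509234⟩,
   ⟨127410, 128817, 27686, 29093, 12395446455, 12507242709, 3252805317, 3283757291⟩,
   ⟨879060, 880467, 27686, 29093, 72134345090, 72246129759, 18678921258, 18709870241⟩,
   ⟨224101, 225150, 90609, 91650, 24959616812, 25042946550, 6614170320, 6637053450⟩,
   ⟨595530, 596578, 90610, 91650, 54479645384, 54562929706, 14236998892, 14259870294⟩,
   ⟨828999, 830048, 90609, 91650, 73035091915, 73118424896, 19028491137, 19051375104⟩,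
   ⟨57055, 58104, 17296, 18337, 5964898487, 6048217608, 1573002100, 1595882392⟩,
   ⟨77349, 78398, 90609, 91650, 13296193279, 13379537846, 3602375195, 3625262154⟩,
   ⟨900950, 901998, 17297, 18337, 73035091915, 73118381046, 18892246407, 18915118954⟩,
   ⟨310818, 311867, 90610, 91650, 31851639810, 31934953559, 8393867440, 8416746441⟩,
   ⟨682247, 683296, 90609, 91650, 61371668380, 61455016192, 16016696011, 16039583808⟩,
   ⟨79974, 81021, 17298, 18337, 7786423486, 7869592017, 2043370485, 2066207983⟩,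
   ⟨923868, 924915, 17299, 18337, 74856616914, 74939755455, 19362614791, 19385444545⟩,
   ⟨745649, 746471, 56851, 57659, 63759377098, 63824677667, 16570549303, 16588322333⟩,
   ⟨195259, 196081, 56851, 57659, 20016030737, 20081331637, 5274895248, 5292668363⟩,
   ⟨140751, 141573, 56851, 57659, 15683901996, 15749199321, 4156228487, 4174000679⟩,
   ⟨48507, 49329, 56850, 57659, 8352607204, 8417922933, 2263100122, 2280877067⟩,
   ⟨800157, 800979, 56851, 57659, 68091505839, 68156809983, 17689216064, 17706990017⟩,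
   ⟨892401, 893223, 56851, 57659, 75422800632, 75488086371, 19582344429, 19600113629⟩,
   ⟨122622, 123301, 35631, 36293, 12576505034, 12630447577, 3314398440, 3328952423⟩,
   ⟨88360, 89039, 35631, 36293, 9853452683, 9907406603, 2611236477, 2625793397⟩,
   ⟨874272, 874951, 35631, 36293, 72315403670, 72369334627, 18740514383, 18755065373⟩,
   ⟨840010, 840689, 35631, 36293, 69592351319, 69646293653, 18037352419, 18051906347⟩,
   ⟨920859, 921448, 22293, 22863, 74970425164, 75017236696, 19401330469, 19413863304⟩,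
   ⟨899322, 899912, 22293, 22863, 73258792257, 73305620024, 18959342948, 18971879976⟩,
   ⟨55428, 56018, 22292, 22863, 6188598829, 6235456586, 1640098643, 1652643414⟩,
   ⟨76964, 77554, 22292, 22863, 7900231736, 7947073258, 2082086163, 2094626742⟩]

def c0 : CTree :=
  (.ny 3205994 (.nx 2742168 (.nv 465541764776 (.leaf a) (.hole 34)) (.nh 399241939800 (.nx 7878486 (.nv 873761588458 (.leaf a) (.hole 30)) (.nx 10913584 (.nv 1114982393360 (.leaf a) (.hole 36)) (.leaf a))) (.leaf b))) (.ny 4083992 (.nx 5138122 (.nv 690654404880 (.leaf a) (.hole 4)) (.nv 1340095033464 (.leaf a) (.nx 13309560 (.nx 13000000 (.hole 5) (.leaf b)) (.leaf a)))) (.ny 5098698 (.nx 4360774 (.nv 740809625776 (.leaf a) (.hole 24)) (.nh 368402381490 (.leaf a) (.nx 12532212 (.nv 1390075254366 (.leaf a) (.hole 25)) (.leaf a)))) (.ny 6495522 (.nx 8172538 (.nv 1098943371416 (.leaf a) (.hole 1)) (.leaf a)) (.ny 8109794 (.nx 6935852 (.nv 1178735768320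 (.leaf a) (.hole 18)) (.leaf a)) (.leaf a))))))

def c1 : CTree :=
  (.ny 1615394 (.nx 2031876 (.nv 272699822010 (.leaf a) (.hole 15)) (.nv 1586955591980 (.nh 348937695084 (.nh 307270247834 (.nx 5138122 (.nv 529295139736 (.leaf a) (.hole 16)) (.nx 7168216 (.nv 690654404880 (.leaf a) (.hole 21)) (.leaf a))) (.nx 13309560 (.leaf b) (.leaf a))) (.nx 15339632 (.leaf b) (.leaf a))) (.nh 448034466478 (.leaf b) (.leaf a)))) (.ny 2016300 (.nx 1724756 (.nv 292516252138 (.leaf a) (.hole 43)) (.nh 418626805014 (.nx 4953300 (.nv 549111569864 (.leaf a) (.hole 42)) (.nx 6861074 (.nv 700736075820 (.leaf a) (.hole 41)) (.nh 352367312242 (.nh 313213975624 (.leaf a) (.nx 13124716 (.leaf b) (.leaf a))) (.nh 412310747040 (.leaf b) (.leaf a))))) (.nh 451464083680 (.leaf b) (.leaf a)))) (.ny 2568192 (.nx 3230788 (.nv 434015625934 (.leaf a) (.hole 7)) (.nv 1491676078178 (.nh 288372901278 (.nh 222083780644 (.leaf a) (.nx 8172538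 (.nv 842060449581 (.leaf a) (.hole 10)) (.leaf a))) (.nx 11402204 (.nv 1098768371401 (.leaf a) (.hole 12)) (.leaf a))) (.leaf b))) c0)))

def c2 : CTree :=
  (.ny 640046 (.nx 2031876 (.nv 208946447050 (.leaf a) (.hole 33)) (.nx 2833974 (.nv 272699822010 (.leaf a) (.hole 38)) (.nh 410936267676 (.nh 394473374240 (.leaf a) (.leaf b)) (.leaf b)))) (.ny 798446 (.nx 1958858 (.nh 57447202494 (.leaf a) (.hole 52)) (.nx 2712622 (.nh 72916765680 (.leaf a) (.hole 53)) (.nh 412291316426 (.nh 396821753218 (.leaf a) (.leaf b)) (.leaf b)))) (.ny 1016488 (.nv 1646845572108 (.nx 3230788 (.nv 332589802116 (.leaf a) (.hole 27)) (.nx 4506832 (.nv 434015625934 (.leaf a) (.hole 28)) (.nh 387006994044 (.nh 360816027198 (.leaf a) (.nh 380690936092 (.leaf b) (.leaf a))) (.leaf b)))) (.leaf b)) (.ny 1268498 (.nh 430811577438 (.nx 3114606 (.nv 345045843912 (.leaf a) (.hole 47)) (.nx 4313782 (.nv 440352676214 (.leaf a) (.hole 46))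 (.nh 389162753408 (.nh 364552084666 (.leaf a) (.nx 16422362 (.leaf b) (.leaf a))) (.leaf b)))) (.leaf b)) c1))))

def c3 : CTree :=
  (.ny 2568192 (.nx 21172538 (.nv 1875436449594 (.leaf b) (.hole 9)) (.nv 2524877078178 (.nx 24402204 (.nv 2132144371416 (.leaf b) (.hole 13)) (.leaf b)) (.nx 29538544 (.hole 8) (.leaf b)))) (.ny 3205994 (.nx 20878486 (.nv 1906962588458 (.leaf b) (.hole 31)) (.nh 666040939800 (.nx 23913584 (.nv 2148183393360 (.leaf b) (.hole 37)) (.leaf b)) (.nx 29049924 (.nv 2556228217026 (.leaf b) (.hole 32)) (.leaf b)))) (.ny 4083992 (.nx 18138122 (.hole 6) (.nv 2373296033464 (.leaf b) (.nx 26309560 (.hole 3) (.leaf b)))) (.ny 5098698 (.nx 17360774 (.nv 1774010625776 (.leaf b) (.hole 23)) (.nh 635201381490 (.leaf b) (.nx 25532212 (.nv 2423276254351 (.leaf b) (.hole 22)) (.leaf b)))) (.ny 6495522 (.nx 21172538 (.nv 2132144371416 (.leaf b) (.hole 2)) (.leaf b)) (.ny 8109794 (.nx 19935852 (.nv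 2211936768320 (.leaf b) (.hole 17)) (.leaf b)) (.leaf b)))))))

def c4 : CTree :=
  (.ny 1016488 (.nh 653805994044 (.nh 627615027198 (.leaf b) (.nx 29538544 (.nv 2423276254351 (.leaf b) (.hole 26)) (.leaf b))) (.nx 30814588 (.nv 2524702078151 (.leaf b) (.hole 29)) (.leaf b))) (.ny 1268498 (.nh 655961753408 (.nh 631351084666 (.leaf b) (.nx 29422362 (.hole 49) (.leaf b))) (.nx 30621538 (.hole 48) (.leaf b))) (.ny 1615394 (.nv 2620156591980 (.nh 615736695084 (.nh 574069247834 (.leaf b) (.nx 26309560 (.nv 2211761768301 (.leaf b) (.hole 19)) (.leaf b))) (.nx 28339632 (.nv 2373121033466 (.leaf b) (.hole 20)) (.leaf b))) (.nx 31568176 (.hole 14) (.leaf b))) (.ny 2016300 (.nh 685425805014 (.nh 619166312242 (.nh 580012975624 (.leaf b) (.nx 26124716 (.hole 40) (.leaf b))) (.nx 28032512 (.hole 44) (.leaf b))) (.nx 31261056 (.hole 45) (.leaf b))) c3))))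

def c5 : CTree :=
  (.ny 14615394 (.nx 2031876 (.leaf a) (.nv 2600955591980 (.nh 634937695084 (.nh 593270247834 (.nx 5138122 (.leaf a) (.nx 7168216 (.leaf a) (.leaf d))) (.leaf b)) (.leaf b)) (.leaf b))) (.ny 15016300 (.nx 1724756 (.leaf a) (.nh 704626805014 (.nx 4953300 (.leaf a) (.leaf c)) (.leaf b))) (.ny 15568192 (.nx 3230788 (.leaf a) (.nx 7220774 (.leaf d) (.nh 654402381490 (.leaf c) (.leaf b)))) (.ny 16205994 (.nx 2742168 (.leaf a) (.nh 685241939800 (.nx 2860000 (.leaf a) (.nx 7878486 (.leaf c) (.nx 10913584 (.leaf c) (.leaf d)))) (.leaf b))) (.ny 17083992 (.nx 5138122 (.leaf a) (.nv 2354095033464 (.leaf d) (.leaf c))) (.ny 18098698 (.nx 4360774 (.nv 1754809625776 (.leaf d) (.leaf c)) (.leaf c)) (.ny 19495522 (.nx 2860000 (.leaf d) (.ny 18441804 (.leaf d) (.leaf c))) (.ny 21109794 (.nx 6935852 (.nv 2192735768320 (.leaf d) (.leaf c)) (.leaf c)) (.leaf d)))))))))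

def c6 : CTree :=
  (.ny 13403414 (.nh 711977525402 (.nx 1278288 (.leaf a) (.nh 701629420954 (.nx 1782462 (.leaf a) (.leaf d)) (.leaf b))) (.leaf b)) (.ny 13502986 (.nx 1232396 (.leaf a) (.nh 712829270318 (.nx 1706188 (.leaf a) (.nh 703105544856 (.leaf d) (.leaf b))) (.leaf b))) (.ny 13640046 (.nh 696936267676 (.nh 680473374240 (.nx 2031876 (.leaf a) (.nx 2833974 (.leaf a) (.leaf d))) (.leaf b)) (.leaf b)) (.ny 13798446 (.nx 1958858 (.leaf a) (.nx 2712622 (.leaf a) (.nh 698291316426 (.nh 682821753218 (.leaf d) (.leaf b)) (.leaf b)))) (.ny 14016488 (.nx 1278288 (.leaf a) (.nv 2660845572108 (.nh 673006994044 (.nh 646816027198 (.nx 3230788 (.leaf a) (.nx 4506832 (.leaf a) (.leaf d))) (.leaf b)) (.leaf b)) (.leaf b))) (.ny 14268498 (.nx 1085238 (.leaf a) (.nh 716811577438 (.nx 3114606 (.leaf a) (.nx 4313782 (.leaf a) (.nh 675162753408 (.nh 650552084666 (.leaf d) (.leaf b)) (.leaf b)))) (.leaf b))) c5))))))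

def c7 : CTree :=
  (.ny 13000000 (.nv 1748494000000 (.nx 20460000 (.ny 403414 (.nh 425977525402 (.nh 415629420954 (.leaf a) (.leaf b)) (.leaf b)) (.ny 502986 (.nh 426829270318 (.nh 417105544856 (.leaf a) (.leaf b)) (.leaf b)) c2)) (.leaf b)) (.nx 13000000 (.ny 10332010 (.hole 0) (.nx 11032538 (.nv 1875436449594 (.leaf c) (.ny 12900202 (.hole 11) (.leaf c))) (.leaf c))) (.ny 640046 (.nh 677735267676 (.nh 661272374240 (.leaf b) (.nx 31568176 (.nv 2556228217026 (.leaf b) (.hole 35)) (.leaf b))) (.nx 32370274 (.nv 2619981591991 (.leaf b) (.hole 39)) (.leaf b))) (.ny 798446 (.nh 679090316426 (.nh 663620753218 (.leaf b) (.nx 31495158 (.hole 51) (.leaf b))) (.nx 32248922 (.hole 50) (.leaf b))) c4)))) (.nv 2762494000000 (.nx 20460000 (.nv 1136394580000 (.leaf a) c6) (.leaf b)) (.leaf c)))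

def croot : CTree := c7

end Pool.Agent.Lib.MP_43eaec_an
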