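import Mathlib

/-! # Self-similar sets of polytopes: definitions

The homotheties are `x ↦ lam • x + (1 - lam) • p i`, where `p` lists the vertices of a polytope. -/

set_option autoImplicit false

namespace Pool.Agent.Lib.MP_43eaec_an

/-- The points `p i` are distinct and are exactly the vertices (extreme points) of their convex
hull, a convex polytope. -/
def IsVertexSet {d k : ℕ} (p : Fin k → EuclideanSpace ℝ (Fin d)) : Prop :=
  Function.Injective p ∧ (convexHull ℝ (Set.range p)).extremePoints ℝ = Set.range p

/-- `S` is the self-similar set of the homotheties `x ↦ lam • x + (1 - lam) • p i`: it is nonempty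
and compact and is the union of its images. -/
def IsAttractor {d k : ℕ} (p : Fin k → EuclideanSpace ℝ (Fin d)) (lam : ℝ)
    (S : Set (EuclideanSpace ℝ (Fin d))) : Prop :=
  S.Nonempty ∧ IsCompact S ∧ S = ⋃ i, (fun x => lam • x + (1 - lam) • p i) '' S

/-- The sequence `ε` is an address of `x`, that is `x = (1 - lam) ∑ₙ lam ^ n • p (ε n)`, the sum
over `n ≥ 0`. -/
def IsAddress {d k : ℕ} (p : Fin k → EuclideanSpace ℝ (Fin d)) (lam : ℝ)
    (x : EuclideanSpace ℝ (Fin d)) (ε : ℕ → Fin k) : Prop :=
  HasSum (fun n => ((1 - lam) * lam ^ n) • p (ε n)) x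

/-- The number `t` is a threshold: for `t < lam < 1` every point of the self-similar set other than
the vertices has uncountably many addresses, and for `0 < lam < t` some point of it other than the
vertices has exactly one address. -/
def IsThreshold {d k : ℕ} (p : Fin k → EuclideanSpace ℝ (Fin d)) (t : ℝ) : Prop :=
  (∀ lam, t < lam → lam < 1 → ∀ S, IsAttractor p lam S →
    ∀ x ∈ S, x ∉ Set.range p → ¬ {ε | IsAddress p lam x ε}.Countable) ∧
  (∀ lam, 0 < lam → lam < t → ∀ S, IsAttractor p lam S →
    ∃ x ∈ S, x ∉ Set.range p ∧ ∃! ε, IsAddress p lam x ε)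

end Pool.Agent.Lib.MP_43eaec_an
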