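import Pool.Agent.Lib.MP_43eaec_an.Data

/-! # The kernel evaluates the certificate -/

set_option autoImplicit false
set_option maxRecDepth 100000

namespace Pool.Agent.Lib.MP_43eaec_an

/-- the root cell -/
def rootBd : Bd :=
  ⟨0, 35 * 930000, 0, 35 * 1000000, 35 * 5563390000, 35 * 79477000000, 0, 35 * 22000000000⟩

theorem chkC_ok : chkC holes croot rootBd = true := by decide +kernel

theorem chkRoot_ok : chkRoot holes root = true := by decide +kernel

theorem dfs_ok : (start root 60 .a .b && start root 60 .a .c && start root 60 .a .d &&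
    start root 60 .b .a && start root 60 .b .c && start root 60 .b .d &&
    start root 60 .c .a && start root 60 .c .b && start root 60 .c .d &&
    start root 60 .d .a && start root 60 .d .b && start root 60 .d .c) = true := by
  decide +kernel

theorem start_ok {e f : Dg} (h : e ≠ f) : start root 60 e f = true := by
  have h0 := dfs_ok
  simp only [Bool.and_eq_true] at h0
  obtain ⟨⟨⟨⟨⟨⟨⟨⟨⟨⟨⟨h1, h2⟩, h3⟩, h4⟩, h5⟩, h6⟩, h7⟩, h8⟩, h9⟩, h10⟩, h11⟩, h12⟩ := h0
  match e, f with
  | .a, .a => exact absurd rfl h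
  | .a, .b => exact h1
  | .a, .c => exact h2
  | .a, .d => exact h3
  | .b, .a => exact h4
  | .b, .b => exact absurd rfl h
  | .b, .c => exact h5
  | .b, .d => exact h6
  | .c, .a => exact h7
  | .c, .b => exact h8
  | .c, .c => exact absurd rfl h
  | .c, .d => exact h9
  | .d, .a => exact h10
  | .d, .b => exact h11
  | .d, .c => exact h12
  | .d, .d => exact absurd rfl h

theorem holes_pos' : (holes.all fun k => Nat.ble 1 k.ux && Nat.ble 1 k.uy && Nat.ble 1 k.uv &&
    Nat.ble 1 k.uh) = true := by decide +kernel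

theorem holes_pos : ∀ k ∈ holes, 0 < k.ux ∧ 0 < k.uy ∧ 0 < k.uv ∧ 0 < k.uh := by
  intro k hk
  have h := holes_pos'
  rw [List.all_eq_true] at h
  have h2 := h k hk
  simp only [Bool.and_eq_true, Nat.ble_eq] at h2
  omega

end Pool.Agent.Lib.MP_43eaec_an
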