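import Pool.Agent.Lib.MP_43eaec_an.Sound

/-! # Soundness of the word search -/

set_option autoImplicit false

namespace Pool.Agent.Lib.MP_43eaec_an

/-- `(X, Y)` is the image of `(a, b)` under the composition of the word `w` -/
def Path : List Dg → ℝ → ℝ → ℝ → ℝ → Prop
  | [], X, Y, a, b => X = a ∧ Y = b
  | e :: l, X, Y, a, b => ∃ X1 Y1, X = (22 * X1 + 13 * vx e) / 35 ∧
      Y = (22 * Y1 + 13 * vy e) / 35 ∧ Path l X1 Y1 a b

theorem rep_path (w : List Dg) : ∀ (s : Acc) {X Y a b : ℝ}, Rep (accL w s) X Y a b →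
    ∃ X' Y', Rep s X Y X' Y' ∧ Path w X' Y' a b := by
  induction w with
  | nil => intro s X Y a b h; exact ⟨a, b, h, rfl, rfl⟩
  | cons e l ih =>
    intro s X Y a b h
    obtain ⟨X', Y', hr, hp⟩ := ih (s.push e) h
    exact ⟨_, _, rep_pop hr, X', Y', rfl, rfl, hp⟩

theorem rep_acc0 {X Y X' Y' : ℝ} (h : Rep acc0 X Y X' Y') : X = X' ∧ Y = Y' := by
  obtain ⟨h1, h2⟩ := h
  simp only [acc0, Nat.cast_one, one_mul, Nat.cast_zero, add_zero] at h1 h2
  exact ⟨h1, h2⟩

/-- follow a sequence in a trie -/
def reach : Trie → (ℕ → Dg) → ℕ → Trie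
  | t, _, 0 => t
  | t, δ, n + 1 => reach (child t (δ 0)) (fun k => δ (k + 1)) n

theorem reach_E (n : ℕ) : ∀ δ : ℕ → Dg, reach .E δ n = .E := by
  induction n with
  | zero => intro δ; rfl
  | succ n ih =>
    intro δ
    rw [reach]
    have : child .E (δ 0) = .E := by cases δ 0 <;> rfl
    rw [this]
    exact ih _

theorem reach_succ (n : ℕ) : ∀ (t : Trie) (δ : ℕ → Dg),
    reach t δ (n + 1) = child (reach t δ n) (δ n) := by
  induction n with
  | zero => intro t δ; rfl
  | succ n ih =>
    intro t δ
    rw [reach, ih]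
    rfl

theorem ne_of_Dgne {e f : Dg} (h : Dg.ne e f = true) : e ≠ f := by
  intro hef
  subst hef
  cases e <;> simp [Dg.ne] at h

theorem leafW_sound {hs : List Bd} {first : Dg} {s : Acc} {w : List Dg} {X0 Y0 X Y : ℝ}
    (h : leafW hs first s w = true) (hok : s.ok) (hr : Rep s X0 Y0 X Y) (hp : inPi X Y) :
    ∃ e l, w = e :: l ∧ first ≠ e ∧ ∃ a b, Path w X0 Y0 a b ∧ good hs a b := by
  cases w with
  | nil => simp [leafW] at h
  | cons e l =>
    simp only [leafW, Bool.and_eq_true] at h
    obtain ⟨h1, h2⟩ := h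
    have htok : (accL l (acc0.push e)).ok := ok_accL l (ok_push ok_acc0 e)
    have tp : ((accL l (acc0.push e)).p : ℝ) ≠ 0 := by
      have := htok.1
      positivity
    refine ⟨e, l, rfl, ne_of_Dgne h1, ?_⟩
    set t := accL l (acc0.push e) with ht
    have hrep : Rep t X0 Y0 (((t.q : ℝ) * X0 - t.x) / t.p) (((t.q : ℝ) * Y0 - t.y) / t.p) := by
      constructor
      · field_simp
        ring
      · field_simp
        ring
    refine ⟨_, _, ?_, wordOK_sound h2 hok htok hr hp hrep⟩
    obtain ⟨X', Y', hr', hp'⟩ := rep_path (e :: l) acc0 (by simpa [accL, ← ht] using hrep)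
    obtain ⟨hx, hy⟩ := rep_acc0 hr'
    rw [← hx, ← hy] at hp'
    exact hp'

theorem chkW_sound {hs : List Bd} {first : Dg} (n : ℕ) : ∀ (t : Trie) (s : Acc) (δ : ℕ → Dg)
    (X Y : ℕ → ℝ) (X0 Y0 : ℝ) (w : List Dg), chkW hs first t s = true → s.ok →
    Rep s X0 Y0 (X 0) (Y 0) →
    (∀ k, 35 * X k = 22 * X (k + 1) + 13 * vx (δ k)) →
    (∀ k, 35 * Y k = 22 * Y (k + 1) + 13 * vy (δ k)) →
    (∀ k, inPi (X k) (Y k)) → reach t δ n = .L w →
    ∃ e l, w = e :: l ∧ first ≠ e ∧ ∃ a b, Path w X0 Y0 a b ∧ good hs a b := by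
  induction n with
  | zero =>
    intro t s δ X Y X0 Y0 w h hok hr hX hY hpi hreach
    rw [reach] at hreach
    subst hreach
    rw [chkW] at h
    exact leafW_sound h hok hr (hpi 0)
  | succ n ih =>
    intro t s δ X Y X0 Y0 w h hok hr hX hY hpi hreach
    rw [reach] at hreach
    have hr' : Rep (s.push (δ 0)) X0 Y0 (X 1) (Y 1) := rep_push hr (hX 0) (hY 0)
    have key : chkW hs first (child t (δ 0)) (s.push (δ 0)) = true := by
      cases t with
      | E => cases δ 0 <;> rfl
      | L u => cases δ 0 <;> rfl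
      | N p q r v =>
        simp only [chkW, Bool.and_eq_true] at h
        obtain ⟨⟨⟨ha, hb⟩, hc⟩, hd⟩ := h
        cases δ 0
        · exact ha
        · exact hb
        · exact hc
        · exact hd
    exact ih (child t (δ 0)) (s.push (δ 0)) (fun k => δ (k + 1)) (fun k => X (k + 1))
      (fun k => Y (k + 1)) X0 Y0 w key (ok_push hok _) hr' (fun k => hX (k + 1))
      (fun k => hY (k + 1)) (fun k => hpi (k + 1)) hreach

theorem chkRoot_sound {hs : List Bd} {root : Trie} (h : chkRoot hs root = true) (n : ℕ)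
    (δ : ℕ → Dg) (X Y : ℕ → ℝ) (w : List Dg)
    (hX : ∀ k, 35 * X k = 22 * X (k + 1) + 13 * vx (δ k))
    (hY : ∀ k, 35 * Y k = 22 * Y (k + 1) + 13 * vy (δ k))
    (hpi : ∀ k, inPi (X k) (Y k)) (hreach : reach root δ n = .L w) :
    ∃ e l, w = e :: l ∧ δ 0 ≠ e ∧ ∃ a b, Path w (X 0) (Y 0) a b ∧ good hs a b := by
  cases root with
  | E => simp [chkRoot] at h
  | L u => simp [chkRoot] at h
  | N p q r v =>
    simp only [chkRoot, Bool.and_eq_true] at h
    obtain ⟨⟨⟨ha, hb⟩, hc⟩, hd⟩ := h
    cases n with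
    | zero => simp [reach] at hreach
    | succ n =>
      rw [reach] at hreach
      have hr : Rep acc0 (X 0) (Y 0) (X 0) (Y 0) := by simp [Rep, acc0]
      have hr' : Rep (acc0.push (δ 0)) (X 0) (Y 0) (X 1) (Y 1) := rep_push hr (hX 0) (hY 0)
      have key : chkW hs (δ 0) (child (.N p q r v) (δ 0)) (acc0.push (δ 0)) = true := by
        cases δ 0
        · exact ha
        · exact hb
        · exact hc
        · exact hd
      exact chkW_sound n (child (.N p q r v) (δ 0)) (acc0.push (δ 0)) (fun k => δ (k + 1))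
        (fun k => X (k + 1)) (fun k => Y (k + 1)) (X 0) (Y 0) w key (ok_push ok_acc0 _) hr'
        (fun k => hX (k + 1)) (fun k => hY (k + 1)) (fun k => hpi (k + 1)) hreach

/-! ### the search -/

theorem stepT_none {e : Dg} : ∀ {ts : List Trie}, stepT e ts = none →
    ∃ t ∈ ts, ∃ w, child t e = .L w := by
  intro ts
  induction ts with
  | nil => intro h; simp [stepT] at h
  | cons t ts ih =>
    intro h
    rw [stepT] at h
    cases hc : child t e with
    | E =>
      rw [hc] at h
      obtain ⟨t', ht', w, hw⟩ := ih h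
      exact ⟨t', List.mem_cons_of_mem _ ht', w, hw⟩
    | L w => exact ⟨t, List.mem_cons_self, w, hc⟩
    | N p q r s =>
      rw [hc] at h
      cases hs : stepT e ts with
      | none =>
        obtain ⟨t', ht', w, hw⟩ := ih hs
        exact ⟨t', List.mem_cons_of_mem _ ht', w, hw⟩
      | some l => rw [hs] at h; simp at h

theorem stepT_some {e : Dg} : ∀ {ts l : List Trie}, stepT e ts = some l →
    ∀ t' ∈ l, ∃ t ∈ ts, child t e = t' := by
  intro ts
  induction ts with
  | nil =>
    intro l h t' ht'
    simp only [stepT, Option.some.injEq] at h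
    subst h
    simp at ht'
  | cons t ts ih =>
    intro l h t' ht'
    rw [stepT] at h
    cases hc : child t e with
    | E =>
      rw [hc] at h
      obtain ⟨t'', h1, h2⟩ := ih h t' ht'
      exact ⟨t'', List.mem_cons_of_mem _ h1, h2⟩
    | L w => rw [hc] at h; simp at h
    | N p q r s =>
      rw [hc] at h
      cases hs : stepT e ts with
      | none => rw [hs] at h; simp at h
      | some l' =>
        rw [hs] at h
        simp only [Option.some.injEq] at h
        subst h
        rcases List.mem_cons.1 ht' with h1 | h1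
        · exact ⟨t, List.mem_cons_self, by rw [hc, h1]⟩
        · obtain ⟨t'', h2, h3⟩ := ih hs t' h1
          exact ⟨t'', List.mem_cons_of_mem _ h2, h3⟩

/-- all tries of the list are reached at time `n` from some starting time -/
def Act (root : Trie) (ε : ℕ → Dg) (n : ℕ) (act : List Trie) : Prop :=
  ∀ t ∈ act, ∃ s m, s + m = n ∧ reach root (fun k => ε (s + k)) m = t

/-- some word of the trie occurs in the sequence -/
def Occurs (root : Trie) (ε : ℕ → Dg) : Prop :=
  ∃ s m w, reach root (fun k => ε (s + k)) m = .L w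

theorem act_root (root : Trie) (ε : ℕ → Dg) (n : ℕ) {act : List Trie} (h : Act root ε n act) :
    Act root ε n (root :: act) := by
  intro t ht
  rcases List.mem_cons.1 ht with h1 | h1
  · exact ⟨n, 0, rfl, h1 ▸ rfl⟩
  · exact h t h1

theorem act_none {root : Trie} {ε : ℕ → Dg} {n : ℕ} {act : List Trie} (h : Act root ε n act)
    (hs : stepT (ε n) act = none) : Occurs root ε := by
  obtain ⟨t, ht, w, hw⟩ := stepT_none hs
  obtain ⟨s, m, hsm, hr⟩ := h t ht
  refine ⟨s, m + 1, w, ?_⟩
  rw [reach_succ, hr, hsm, hw]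

theorem act_some {root : Trie} {ε : ℕ → Dg} {n : ℕ} {act l : List Trie} (h : Act root ε n act)
    (hs : stepT (ε n) act = some l) : Act root ε (n + 1) l := by
  intro t' ht'
  obtain ⟨t, ht, hc⟩ := stepT_some hs t' ht'
  obtain ⟨s, m, hsm, hr⟩ := h t ht
  refine ⟨s, m + 1, by omega, ?_⟩
  rw [reach_succ, hr, hsm, hc]

theorem dfs_sound {root : Trie} (f : ℕ) : ∀ {ε : ℕ → Dg} {n : ℕ} {act : List Trie},
    dfs root f act = true → Act root ε n act → Occurs root ε := by
  induction f with
  | zero => intro ε n act h; simp [dfs] at h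
  | succ f ih =>
    intro ε n act h hact
    rw [dfs] at h
    simp only [Bool.and_eq_true] at h
    obtain ⟨⟨⟨ha, hb⟩, hc⟩, hd⟩ := h
    have hact' := act_root root ε n hact
    have key : (match stepT (ε n) (root :: act) with
      | none => true
      | some l => dfs root f l) = true := by
      cases ε n
      · exact ha
      · exact hb
      · exact hc
      · exact hd
    cases hst : stepT (ε n) (root :: act) with
    | none => exact act_none hact' hst
    | some l =>
      rw [hst] at key
      exact ih key (act_some hact' hst)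

theorem start_sound {root : Trie} {f : ℕ} {ε : ℕ → Dg} {n : ℕ}
    (h : start root f (ε n) (ε (n + 1)) = true) : Occurs root ε := by
  unfold start at h
  have h0 : Act root ε n [root] := act_root root ε n (by intro t ht; simp at ht)
  cases hst : stepT (ε n) [root] with
  | none => exact act_none h0 hst
  | some l =>
    rw [hst] at h
    have h1 := act_root root ε (n + 1) (act_some h0 hst)
    simp only at h
    cases hst2 : stepT (ε (n + 1)) (root :: l) with
    | none => exact act_none h1 hst2
    | some l' =>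
      rw [hst2] at h
      exact dfs_sound f h (act_some h1 hst2)

end Pool.Agent.Lib.MP_43eaec_an
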