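import Pool.Agent.Lib.MP_43eaec_an.Basic
import Pool.Agent.Lib.MP_43eaec_an.Words
import Pool.Agent.Lib.MP_43eaec_an.Run

/-! # No unique addresses at `22/35` -/

set_option autoImplicit false

namespace Pool.Agent.Lib.MP_43eaec_an

/-- digits as indices -/
def idx : Dg → Fin 4
  | .a => 0
  | .b => 1
  | .c => 2
  | .d => 3

/-- indices as digits -/
def dg : Fin 4 → Dg
  | 0 => .a
  | 1 => .b
  | 2 => .c
  | 3 => .d

theorem dg_idx (e : Dg) : dg (idx e) = e := by cases e <;> rfl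

theorem idx_dg (i : Fin 4) : idx (dg i) = i := by
  fin_cases i <;> rfl

theorem dg_inj {i j : Fin 4} (h : dg i = dg j) : i = j := by
  rw [← idx_dg i, ← idx_dg j, h]

/-- a point of the plane -/
noncomputable def pt (X Y : ℝ) : EuclideanSpace ℝ (Fin 2) := !₂[X, Y]

@[simp] theorem pt_0 (X Y : ℝ) : pt X Y 0 = X := by simp [pt]
@[simp] theorem pt_1 (X Y : ℝ) : pt X Y 1 = Y := by simp [pt]

/-- the vertices -/
noncomputable def P (i : Fin 4) : EuclideanSpace ℝ (Fin 2) := pt (vx (dg i)) (vy (dg i))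

theorem P_0 (i : Fin 4) : P i 0 = vx (dg i) := by simp [P]
theorem P_1 (i : Fin 4) : P i 1 = vy (dg i) := by simp [P]

theorem ext2 {x y : EuclideanSpace ℝ (Fin 2)} (h0 : x 0 = y 0) (h1 : x 1 = y 1) : x = y := by
  ext i
  fin_cases i
  · exact h0
  · exact h1

theorem pt_eta (x : EuclideanSpace ℝ (Fin 2)) : pt (x 0) (x 1) = x :=
  ext2 (by simp) (by simp)

theorem norm_le_of_inPi {x : EuclideanSpace ℝ (Fin 2)} (h : inPi (x 0) (x 1)) :
    ‖x‖ ≤ 2000000 := by
  obtain ⟨h1, h2, h3, h4⟩ := h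
  have hx : x 0 ≤ 1000000 := by linarith
  have hy : x 1 ≤ 1000000 := by linarith
  rw [EuclideanSpace.norm_eq, Fin.sum_univ_two, Real.sqrt_le_left (by norm_num)]
  rw [Real.norm_of_nonneg h1, Real.norm_of_nonneg h2]
  nlinarith

/-- the functionals of an address lie in the quadrilateral -/
theorem inPi_of_addr {lam : ℝ} (h0 : 0 < lam) (h1 : lam < 1) {x : EuclideanSpace ℝ (Fin 2)}
    {ε : ℕ → Fin 4} (h : IsAddress P lam x ε) : inPi (x 0) (x 1) := by
  let g0 : EuclideanSpace ℝ (Fin 2) →L[ℝ] ℝ := EuclideanSpace.proj 0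
  let g1 : EuclideanSpace ℝ (Fin 2) →L[ℝ] ℝ := EuclideanSpace.proj 1
  have e0 : ∀ y, g0 y = y 0 := fun y => rfl
  have e1 : ∀ y, g1 y = y 1 := fun y => rfl
  refine ⟨?_, ?_, ?_, ?_⟩
  · have := addr_le h0 h1 h (-g0) (M := 0) (fun i => by
      show -(g0 (P i)) ≤ 0
      rw [e0, P_0]
      simp)
    have h2 : -(g0 x) ≤ 0 := this
    rw [e0] at h2
    linarith
  · have := addr_le h0 h1 h (-g1) (M := 0) (fun i => by
      show -(g1 (P i)) ≤ 0
      rw [e1, P_1]
      simp)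
    have h2 : -(g1 x) ≤ 0 := this
    rw [e1] at h2
    linarith
  · have := addr_le h0 h1 h ((79477 : ℝ) • g0 + (78000 : ℝ) • g1) (M := 79477000000) (fun i => by
      show (79477 : ℝ) * (g0 (P i)) + (78000 : ℝ) * (g1 (P i)) ≤ _
      rw [e0, e1, P_0, P_1]
      cases dg i <;> norm_num [vx, vy])
    exact this
  · have := addr_le h0 h1 h ((20523 : ℝ) • g0 + (22000 : ℝ) • g1) (M := 22000000000) (fun i => by
      show (20523 : ℝ) * (g0 (P i)) + (22000 : ℝ) * (g1 (P i)) ≤ _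
      rw [e0, e1, P_0, P_1]
      cases dg i <;> norm_num [vx, vy])
    exact this

/-- coordinates of an image -/
theorem map_eq {X Y X1 Y1 : ℝ} {e : Dg} (hx : 35 * X = 22 * X1 + 13 * vx e)
    (hy : 35 * Y = 22 * Y1 + 13 * vy e) :
    pt X Y = (22 / 35 : ℝ) • pt X1 Y1 + (1 - 22 / 35 : ℝ) • P (idx e) := by
  refine ext2 ?_ ?_
  · rw [pt_0]
    show X = (22 / 35 : ℝ) * (pt X1 Y1 0) + (1 - 22 / 35 : ℝ) * (P (idx e) 0)
    rw [pt_0, P_0, dg_idx]
    linear_combination hx / 35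
  · rw [pt_1]
    show Y = (22 / 35 : ℝ) * (pt X1 Y1 1) + (1 - 22 / 35 : ℝ) * (P (idx e) 1)
    rw [pt_1, P_1, dg_idx]
    linear_combination hy / 35

theorem inBd_root {X Y : ℝ} (h : good holes X Y) : inBd rootBd X Y := by
  obtain ⟨⟨h1, h2, h3, h4⟩, h5, h6, _⟩ := h
  unfold inBd rootBd
  push_cast
  refine ⟨by linarith, by linarith, by linarith, by linarith, by linarith, by linarith,
    by linarith, by linarith⟩

/-- every good point has an address -/
theorem good_addr {X Y : ℝ} (h : good holes X Y) :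
    ∃ ε : ℕ → Fin 4, IsAddress P (22 / 35) (pt X Y) ε := by
  have step : ∀ z : {z : ℝ × ℝ // good holes z.1 z.2}, ∃ w : {z : ℝ × ℝ // good holes z.1 z.2},
      ∃ e : Dg, w.1.1 = back z.1.1 (vx e) ∧ w.1.2 = back z.1.2 (vy e) := by
    rintro ⟨⟨x, y⟩, hz⟩
    obtain ⟨e, he⟩ := chkC_sound holes_pos croot rootBd chkC_ok (inBd_root hz) hz.2.2.2
    exact ⟨⟨(back x (vx e), back y (vy e)), he⟩, e, rfl, rfl⟩
  choose f g hfg using step
  let z : ℕ → {z : ℝ × ℝ // good holes z.1 z.2} := fun n => f^[n] ⟨(X, Y), h⟩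
  refine ⟨fun n => idx (g (z n)), ?_⟩
  have hz0 : pt X Y = pt (z 0).1.1 (z 0).1.2 := rfl
  rw [hz0]
  refine addr_of_orbit (z := fun n => pt (z n).1.1 (z n).1.2) (by norm_num) (by norm_num) ?_ ?_
  · intro n
    have hs : z (n + 1) = f (z n) := Function.iterate_succ_apply' f n _
    obtain ⟨h1, h2⟩ := hfg (z n)
    refine map_eq ?_ ?_
    · rw [hs, h1]
      unfold back
      ring
    · rw [hs, h2]
      unfold back
      ring
  · refine ⟨2000000, fun n => norm_le_of_inPi ?_⟩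
    rw [pt_0, pt_1]
    exact (z n).2.1

theorem path_addr {l : List Dg} : ∀ {X Y a b : ℝ}, Path l X Y a b →
    (∃ ε : ℕ → Fin 4, IsAddress P (22 / 35) (pt a b) ε) →
    ∃ ε : ℕ → Fin 4, IsAddress P (22 / 35) (pt X Y) ε := by
  induction l with
  | nil =>
    rintro X Y a b ⟨rfl, rfl⟩ h
    exact h
  | cons e l ih =>
    rintro X Y a b ⟨X1, Y1, hx, hy, hp⟩ h
    obtain ⟨ε, hε⟩ := ih hp h
    have := addr_cons hε (idx e)
    rw [← map_eq (X := X) (Y := Y) (by rw [hx]; ring) (by rw [hy]; ring)] at this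
    exact ⟨_, this⟩

theorem path_addr_cons {e : Dg} {l : List Dg} {X Y a b : ℝ} (hp : Path (e :: l) X Y a b)
    (h : ∃ ε : ℕ → Fin 4, IsAddress P (22 / 35) (pt a b) ε) :
    ∃ ε : ℕ → Fin 4, IsAddress P (22 / 35) (pt X Y) ε ∧ ε 0 = idx e := by
  obtain ⟨X1, Y1, hx, hy, hp⟩ := hp
  obtain ⟨ε, hε⟩ := path_addr hp h
  have := addr_cons hε (idx e)
  rw [← map_eq (X := X) (Y := Y) (by rw [hx]; ring) (by rw [hy]; ring)] at this
  exact ⟨_, this, rfl⟩

theorem scons_tail (ε : ℕ → Fin 4) (n : ℕ) :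
    scons (ε n) (fun k => ε (n + 1 + k)) = fun k => ε (n + k) := by
  funext k
  cases k with
  | zero => rfl
  | succ k => simp only [scons]; congr 1; omega

/-- at `22/35` a point with an address that is not a vertex has a second address -/
theorem lower {z : EuclideanSpace ℝ (Fin 2)} {ε : ℕ → Fin 4} (h : IsAddress P (22 / 35) z ε)
    (hz : z ∉ Set.range P) : ∃ ε', IsAddress P (22 / 35) z ε' ∧ ε' ≠ ε := by
  have l0 : (0 : ℝ) < 22 / 35 := by norm_num
  have l1 : (22 / 35 : ℝ) < 1 := by norm_num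
  have hZ : ∀ n, ∃ x, IsAddress P (22 / 35) x (fun k => ε (n + k)) :=
    fun n => exists_addr l0 l1 _
  choose Z hZ using hZ
  have hstep : ∀ n, Z n = (22 / 35 : ℝ) • Z (n + 1) + (1 - 22 / 35 : ℝ) • P (ε n) := by
    intro n
    have h1 := addr_cons (hZ (n + 1)) (ε n)
    rw [scons_tail] at h1
    exact addr_unique (hZ n) h1
  have hZ0 : Z 0 = z := by
    refine addr_unique (hZ 0) ?_
    simpa using h
  -- some change of digit
  obtain ⟨n, hn⟩ : ∃ n, ε n ≠ ε (n + 1) := by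
    by_contra hcon
    push Not at hcon
    have hconst : ε = fun _ => ε 0 := by
      funext n
      induction n with
      | zero => rfl
      | succ n ih => rw [← hcon n, ih]
    have h1 := addr_const (p := P) l0 l1 (ε 0)
    rw [← hconst] at h1
    exact hz ⟨ε 0, addr_unique h1 h⟩
  have hocc : Occurs root (fun k => dg (ε k)) :=
    start_sound (n := n) (start_ok fun hd => hn (dg_inj hd))
  obtain ⟨s, m, w, hreach⟩ := hocc
  have c0 : ∀ n, 35 * (Z n 0) = 22 * (Z (n + 1) 0) + 13 * vx (dg (ε n)) := by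
    intro n
    have h1 : Z n 0 = (22 / 35 : ℝ) * (Z (n + 1) 0) + (1 - 22 / 35 : ℝ) * (P (ε n) 0) := by
      conv_lhs => rw [hstep n]
      rfl
    rw [h1, P_0]
    ring
  have c1 : ∀ n, 35 * (Z n 1) = 22 * (Z (n + 1) 1) + 13 * vy (dg (ε n)) := by
    intro n
    have h1 : Z n 1 = (22 / 35 : ℝ) * (Z (n + 1) 1) + (1 - 22 / 35 : ℝ) * (P (ε n) 1) := by
      conv_lhs => rw [hstep n]
      rfl
    rw [h1, P_1]
    ring
  obtain ⟨e, l, hw, hne, a, b, hp, hg⟩ := chkRoot_sound chkRoot_ok m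
    (fun k => dg (ε (s + k))) (fun k => Z (s + k) 0) (fun k => Z (s + k) 1) w
    (fun k => c0 (s + k)) (fun k => c1 (s + k))
    (fun k => inPi_of_addr l0 l1 (hZ (s + k))) hreach
  subst hw
  obtain ⟨β, hβ, hβ0⟩ := path_addr_cons hp (good_addr hg)
  have hβ' : IsAddress P (22 / 35) (Z s) β := by
    have := pt_eta (Z s)
    simp only [add_zero] at hβ
    rwa [this] at hβ
  -- prefix
  have hpre : ∀ (s : ℕ) (β : ℕ → Fin 4), IsAddress P (22 / 35) (Z s) β →
      ∃ β', IsAddress P (22 / 35) (Z 0) β' ∧ ∀ k, β' (s + k) = β k := by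
    intro s
    induction s with
    | zero => intro β hβ; exact ⟨β, hβ, fun k => by rw [zero_add]⟩
    | succ s ih =>
      intro β hβ
      have h1 := addr_cons hβ (ε s)
      rw [← hstep s] at h1
      obtain ⟨β', h2, h3⟩ := ih _ h1
      refine ⟨β', h2, fun k => ?_⟩
      have := h3 (k + 1)
      simp only [scons] at this
      rw [← this]
      congr 1
      omega
  obtain ⟨β', h1, h2⟩ := hpre s β hβ'
  rw [hZ0] at h1
  refine ⟨β', h1, fun hcon => ?_⟩
  have h3 := h2 0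
  rw [add_zero, hβ0, hcon] at h3
  apply hne
  show dg (ε (s + 0)) = e
  rw [add_zero, h3, dg_idx]

end Pool.Agent.Lib.MP_43eaec_an
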