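import Pool.Agent.Lib.MP_43eaec_an.Upper

/-! # The quadrilateral has no threshold -/

set_option autoImplicit false

namespace Pool.Agent.Lib.MP_43eaec_an

theorem P_inj : Function.Injective P := by
  intro i j h
  apply dg_inj
  have h0 : P i 0 = P j 0 := by rw [h]
  have h1 : P i 1 = P j 1 := by rw [h]
  rw [P_0, P_0] at h0
  rw [P_1, P_1] at h1
  cases hi : dg i <;> cases hj : dg j <;> rw [hi, hj] at h0 h1 <;>
    first | rfl | (exfalso; norm_num [vx] at h0; done) | (exfalso; norm_num [vy] at h1; done)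

theorem inPi_P (i : Fin 4) : inPi (P i 0) (P i 1) := by
  rw [P_0, P_1]
  unfold inPi
  cases dg i <;> norm_num [vx, vy]

theorem hull_sub {x : EuclideanSpace ℝ (Fin 2)} (hx : x ∈ convexHull ℝ (Set.range P)) :
    inPi (x 0) (x 1) := by
  have hc : Convex ℝ {y : EuclideanSpace ℝ (Fin 2) | inPi (y 0) (y 1)} := by
    intro y hy z hz s t hs ht hst
    obtain ⟨a1, a2, a3, a4⟩ := hy
    obtain ⟨b1, b2, b3, b4⟩ := hz
    have e0 : (s • y + t • z) 0 = s * y 0 + t * z 0 := rfl
    have e1 : (s • y + t • z) 1 = s * y 1 + t * z 1 := rfl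
    show inPi ((s • y + t • z) 0) ((s • y + t • z) 1)
    rw [e0, e1]
    have f1 := mul_le_mul_of_nonneg_left a3 hs
    have f2 := mul_le_mul_of_nonneg_left b3 ht
    have f3 := mul_le_mul_of_nonneg_left a4 hs
    have f4 := mul_le_mul_of_nonneg_left b4 ht
    have ht' : t = 1 - s := by linarith
    refine ⟨by positivity, by positivity, ?_, ?_⟩
    · calc 79477 * (s * y 0 + t * z 0) + 78000 * (s * y 1 + t * z 1)
          = s * (79477 * y 0 + 78000 * y 1) + t * (79477 * z 0 + 78000 * z 1) := by ring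
        _ ≤ s * 79477000000 + t * 79477000000 := add_le_add f1 f2
        _ = 79477000000 := by rw [ht']; ring
    · calc 20523 * (s * y 0 + t * z 0) + 22000 * (s * y 1 + t * z 1)
          = s * (20523 * y 0 + 22000 * y 1) + t * (20523 * z 0 + 22000 * z 1) := by ring
        _ ≤ s * 22000000000 + t * 22000000000 := add_le_add f3 f4
        _ = 22000000000 := by rw [ht']; ring
  exact convexHull_min (by rintro _ ⟨i, rfl⟩; exact inPi_P i) hc hx

theorem tight {s t u v M : ℝ} (hs : 0 < s) (ht : 0 < t) (hst : s + t = 1) (hu : u ≤ M)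
    (hv : v ≤ M) (h : s * u + t * v = M) : u = M := by
  by_contra hne
  have hlt : u < M := lt_of_le_of_ne hu hne
  have h1 := mul_lt_mul_of_pos_left hlt hs
  have h2 := mul_le_mul_of_nonneg_left hv ht.le
  have h3 : s * M + t * M = M := by rw [← add_mul, hst, one_mul]
  linarith

theorem P_extreme (i : Fin 4) : P i ∈ (convexHull ℝ (Set.range P)).extremePoints ℝ := by
  rw [mem_extremePoints_iff_left]
  refine ⟨subset_convexHull ℝ _ ⟨i, rfl⟩, fun x₁ h1 x₂ h2 hseg => ?_⟩
  obtain ⟨s, t, hs, ht, hst, he⟩ := hseg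
  obtain ⟨a1, a2, a3, a4⟩ := hull_sub h1
  obtain ⟨b1, b2, b3, b4⟩ := hull_sub h2
  have e0 : s * x₁ 0 + t * x₂ 0 = P i 0 := by rw [← he]; rfl
  have e1 : s * x₁ 1 + t * x₂ 1 = P i 1 := by rw [← he]; rfl
  have tX : P i 0 = 0 → x₁ 0 = 0 := fun h => by
    have := tight (u := -(x₁ 0)) (v := -(x₂ 0)) (M := 0) hs ht hst (by linarith) (by linarith)
      (by linarith)
    linarith
  have tY : P i 1 = 0 → x₁ 1 = 0 := fun h => by
    have := tight (u := -(x₁ 1)) (v := -(x₂ 1)) (M := 0) hs ht hst (by linarith) (by linarith)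
      (by linarith)
    linarith
  have tV : 79477 * P i 0 + 78000 * P i 1 = 79477000000 →
      79477 * x₁ 0 + 78000 * x₁ 1 = 79477000000 := fun h =>
    tight (v := 79477 * x₂ 0 + 78000 * x₂ 1) hs ht hst a3 b3
      (by linear_combination 79477 * e0 + 78000 * e1 + h)
  have tH : 20523 * P i 0 + 22000 * P i 1 = 22000000000 →
      20523 * x₁ 0 + 22000 * x₁ 1 = 22000000000 := fun h =>
    tight (v := 20523 * x₂ 0 + 22000 * x₂ 1) hs ht hst a4 b4
      (by linear_combination 20523 * e0 + 22000 * e1 + h)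
  have p0 := P_0 i
  have p1 := P_1 i
  rw [← pt_eta x₁, ← pt_eta (P i)]
  cases hd : dg i with
  | a =>
    rw [hd] at p0 p1
    simp only [vx, vy, Nat.cast_zero] at p0 p1
    rw [tX p0, tY p1, p0, p1]
  | b =>
    rw [hd] at p0 p1
    simp only [vx, vy, Nat.cast_zero] at p0 p1
    push_cast at p0
    have q1 := tY p1
    have q2 := tV (by rw [p0, p1]; norm_num)
    have q3 : x₁ 0 = 1000000 := by linarith
    rw [q3, q1, p0, p1]
  | c =>
    rw [hd] at p0 p1
    simp only [vx, vy] at p0 p1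
    push_cast at p0 p1
    have q1 := tV (by rw [p0, p1]; norm_num)
    have q2 := tH (by rw [p0, p1]; norm_num)
    have q3 : x₁ 0 = 220000 := by linarith
    have q4 : x₁ 1 = 794770 := by linarith
    rw [q3, q4, p0, p1]
  | d =>
    rw [hd] at p0 p1
    simp only [vx, vy, Nat.cast_zero] at p0 p1
    push_cast at p1
    have q1 := tX p0
    have q2 := tH (by rw [p0, p1]; norm_num)
    have q3 : x₁ 1 = 1000000 := by linarith
    rw [q3, q1, p0, p1]

theorem P_vertex : IsVertexSet P := by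
  refine ⟨P_inj, Set.Subset.antisymm extremePoints_convexHull_subset ?_⟩
  rintro _ ⟨i, rfl⟩
  exact P_extreme i

/-- The quadrilateral has no threshold. -/
theorem no_threshold : ∃ p : Fin 4 → EuclideanSpace ℝ (Fin 2),
    IsVertexSet p ∧ ¬ ∃ t : ℝ, 0 < t ∧ t < 1 ∧ IsThreshold p t := by
  refine ⟨P, P_vertex, ?_⟩
  rintro ⟨t, ht0, ht1, hup, hlow⟩
  rcases lt_or_ge (22 / 35 : ℝ) t with h | h
  · obtain ⟨x, hx, hxv, ε, hε, huniq⟩ := hlow (22 / 35) (by norm_num) h (codeSet P (22 / 35))
      (codeSet_attractor (by norm_num) (by norm_num) (by norm_num))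
    obtain ⟨ε', h1, h2⟩ := lower hε hxv
    exact h2 (huniq ε' h1)
  · obtain ⟨ε, hε⟩ := orb_addr
    refine hup (17 / 27) (by linarith) (by norm_num) (codeSet P (17 / 27))
      (codeSet_attractor (by norm_num) (by norm_num) (by norm_num)) (orb 0) ⟨ε, hε⟩
      orb_not_vertex ?_
    have hsub : {ε | IsAddress P (17 / 27) (orb 0) ε} ⊆ {ε} := by
      intro ε' h'
      funext n
      exact orb_unique n 0 ε' ε h' hε
    exact (Set.countable_singleton ε).mono hsub

end Pool.Agent.Lib.MP_43eaec_an
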