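import Pool.Agent.Lib.MP_43eaec_an.CheckFns

/-! # Soundness of the checking functions -/

set_option autoImplicit false

namespace Pool.Agent.Lib.MP_43eaec_an

/-- the point with `35` times its coordinates within the bounds -/
def inBd (b : Bd) (X Y : ℝ) : Prop :=
  (b.lx : ℝ) ≤ 35 * X ∧ 35 * X ≤ b.ux ∧ (b.ly : ℝ) ≤ 35 * Y ∧ 35 * Y ≤ b.uy ∧
    (b.lv : ℝ) ≤ 35 * (79477 * X + 78000 * Y) ∧ 35 * (79477 * X + 78000 * Y) ≤ b.uv ∧
    (b.lh : ℝ) ≤ 35 * (20523 * X + 22000 * Y) ∧ 35 * (20523 * X + 22000 * Y) ≤ b.uh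

/-- the point is inside the hole -/
def inHole (b : Bd) (X Y : ℝ) : Prop :=
  (b.lx : ℝ) < X ∧ X < b.ux ∧ (b.ly : ℝ) < Y ∧ Y < b.uy ∧
    (b.lv : ℝ) < 79477 * X + 78000 * Y ∧ 79477 * X + 78000 * Y < b.uv ∧
    (b.lh : ℝ) < 20523 * X + 22000 * Y ∧ 20523 * X + 22000 * Y < b.uh

/-- the quadrilateral -/
def inPi (X Y : ℝ) : Prop :=
  0 ≤ X ∧ 0 ≤ Y ∧ 79477 * X + 78000 * Y ≤ 79477000000 ∧ 20523 * X + 22000 * Y ≤ 22000000000

/-- the good set -/
def good (hs : List Bd) (X Y : ℝ) : Prop :=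
  inPi X Y ∧ 5563390000 ≤ 79477 * X + 78000 * Y ∧ X ≤ 930000 ∧ ∀ k ∈ hs, ¬ inHole k X Y

theorem geX_sound {b : Bd} {c : ℕ} {X Y : ℝ} (h : geX b c = true) (hb : inBd b X Y) :
    (c : ℝ) ≤ 35 * X := by
  obtain ⟨h1, h2, h3, h4, h5, h6, h7, h8⟩ := hb
  simp only [geX, Bool.or_eq_true, Nat.ble_eq] at h
  rcases h with ((h | h) | h) | h
  · have h' : (c : ℝ) ≤ b.lx := by exact_mod_cast h
    linarith
  · have h' : (79477 * c + 78000 * b.uy : ℝ) ≤ b.lv := by exact_mod_cast h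
    linarith
  · have h' : (20523 * c + 22000 * b.uy : ℝ) ≤ b.lh := by exact_mod_cast h
    linarith
  · have h' : (147700000 * c + 78000 * b.uh : ℝ) ≤ 22000 * b.lv := by exact_mod_cast h
    linarith

theorem geY_sound {b : Bd} {c : ℕ} {X Y : ℝ} (h : geY b c = true) (hb : inBd b X Y) :
    (c : ℝ) ≤ 35 * Y := by
  obtain ⟨h1, h2, h3, h4, h5, h6, h7, h8⟩ := hb
  simp only [geY, Bool.or_eq_true, Nat.ble_eq] at h
  rcases h with ((h | h) | h) | h
  · have h' : (c : ℝ) ≤ b.ly := by exact_mod_cast h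
    linarith
  · have h' : (78000 * c + 79477 * b.ux : ℝ) ≤ b.lv := by exact_mod_cast h
    linarith
  · have h' : (22000 * c + 20523 * b.ux : ℝ) ≤ b.lh := by exact_mod_cast h
    linarith
  · have h' : (147700000 * c + 20523 * b.uv : ℝ) ≤ 79477 * b.lh := by exact_mod_cast h
    linarith

theorem geV_sound {b : Bd} {c : ℕ} {X Y : ℝ} (h : geV b c = true) (hb : inBd b X Y) :
    (c : ℝ) ≤ 35 * (79477 * X + 78000 * Y) := by
  obtain ⟨h1, h2, h3, h4, h5, h6, h7, h8⟩ := hb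
  simp only [geV, Bool.or_eq_true, Nat.ble_eq] at h
  rcases h with ((h | h) | h) | h
  · have h' : (c : ℝ) ≤ b.lv := by exact_mod_cast h
    linarith
  · have h' : (c : ℝ) ≤ 79477 * b.lx + 78000 * b.ly := by exact_mod_cast h
    linarith
  · have h' : (22000 * c : ℝ) ≤ 78000 * b.lh + 147700000 * b.lx := by exact_mod_cast h
    linarith
  · have h' : (20523 * c + 147700000 * b.uy : ℝ) ≤ 79477 * b.lh := by exact_mod_cast h
    linarith

theorem geH_sound {b : Bd} {c : ℕ} {X Y : ℝ} (h : geH b c = true) (hb : inBd b X Y) :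
    (c : ℝ) ≤ 35 * (20523 * X + 22000 * Y) := by
  obtain ⟨h1, h2, h3, h4, h5, h6, h7, h8⟩ := hb
  simp only [geH, Bool.or_eq_true, Nat.ble_eq] at h
  rcases h with ((h | h) | h) | h
  · have h' : (c : ℝ) ≤ b.lh := by exact_mod_cast h
    linarith
  · have h' : (c : ℝ) ≤ 20523 * b.lx + 22000 * b.ly := by exact_mod_cast h
    linarith
  · have h' : (78000 * c + 147700000 * b.ux : ℝ) ≤ 22000 * b.lv := by exact_mod_cast h
    linarith
  · have h' : (79477 * c : ℝ) ≤ 20523 * b.lv + 147700000 * b.ly := by exact_mod_cast h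
    linarith

theorem leX_sound {b : Bd} {c : ℕ} {X Y : ℝ} (h : leX b c = true) (hb : inBd b X Y) :
    35 * X ≤ c := by
  obtain ⟨h1, h2, h3, h4, h5, h6, h7, h8⟩ := hb
  simp only [leX, Bool.or_eq_true, Nat.ble_eq] at h
  rcases h with ((h | h) | h) | h
  · have h' : (b.ux : ℝ) ≤ c := by exact_mod_cast h
    linarith
  · have h' : (b.uv : ℝ) ≤ 79477 * c + 78000 * b.ly := by exact_mod_cast h
    linarith
  · have h' : (b.uh : ℝ) ≤ 20523 * c + 22000 * b.ly := by exact_mod_cast h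
    linarith
  · have h' : (22000 * b.uv : ℝ) ≤ 147700000 * c + 78000 * b.lh := by exact_mod_cast h
    linarith

theorem leY_sound {b : Bd} {c : ℕ} {X Y : ℝ} (h : leY b c = true) (hb : inBd b X Y) :
    35 * Y ≤ c := by
  obtain ⟨h1, h2, h3, h4, h5, h6, h7, h8⟩ := hb
  simp only [leY, Bool.or_eq_true, Nat.ble_eq] at h
  rcases h with ((h | h) | h) | h
  · have h' : (b.uy : ℝ) ≤ c := by exact_mod_cast h
    linarith
  · have h' : (b.uv : ℝ) ≤ 78000 * c + 79477 * b.lx := by exact_mod_cast h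
    linarith
  · have h' : (b.uh : ℝ) ≤ 22000 * c + 20523 * b.lx := by exact_mod_cast h
    linarith
  · have h' : (79477 * b.uh : ℝ) ≤ 147700000 * c + 20523 * b.lv := by exact_mod_cast h
    linarith

theorem leV_sound {b : Bd} {c : ℕ} {X Y : ℝ} (h : leV b c = true) (hb : inBd b X Y) :
    35 * (79477 * X + 78000 * Y) ≤ c := by
  obtain ⟨h1, h2, h3, h4, h5, h6, h7, h8⟩ := hb
  simp only [leV, Bool.or_eq_true, Nat.ble_eq] at h
  rcases h with ((h | h) | h) | h
  · have h' : (b.uv : ℝ) ≤ c := by exact_mod_cast h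
    linarith
  · have h' : (79477 * b.ux + 78000 * b.uy : ℝ) ≤ c := by exact_mod_cast h
    linarith
  · have h' : (78000 * b.uh + 147700000 * b.ux : ℝ) ≤ 22000 * c := by exact_mod_cast h
    linarith
  · have h' : (79477 * b.uh : ℝ) ≤ 20523 * c + 147700000 * b.ly := by exact_mod_cast h
    linarith

theorem leH_sound {b : Bd} {c : ℕ} {X Y : ℝ} (h : leH b c = true) (hb : inBd b X Y) :
    35 * (20523 * X + 22000 * Y) ≤ c := by
  obtain ⟨h1, h2, h3, h4, h5, h6, h7, h8⟩ := hb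
  simp only [leH, Bool.or_eq_true, Nat.ble_eq] at h
  rcases h with ((h | h) | h) | h
  · have h' : (b.uh : ℝ) ≤ c := by exact_mod_cast h
    linarith
  · have h' : (20523 * b.ux + 22000 * b.uy : ℝ) ≤ c := by exact_mod_cast h
    linarith
  · have h' : (22000 * b.uv : ℝ) ≤ 78000 * c + 147700000 * b.lx := by exact_mod_cast h
    linarith
  · have h' : (20523 * b.uv + 147700000 * b.uy : ℝ) ≤ 79477 * c := by exact_mod_cast h
    linarith

theorem vv_eq (e : Dg) : (vv e : ℝ) = 79477 * vx e + 78000 * vy e := by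
  cases e <;> norm_num [vv, vx, vy]

theorem vh_eq (e : Dg) : (vh e : ℝ) = 20523 * vx e + 22000 * vy e := by
  cases e <;> norm_num [vh, vx, vy]

/-- the inverse of the map `e` in one coordinate -/
noncomputable def back (X : ℝ) (v : ℕ) : ℝ := (35 * X - 13 * v) / 22

theorem leafOK_sound {hs : List Bd} {b : Bd} {e : Dg} {X Y : ℝ} (h : leafOK hs b e = true)
    (hb : inBd b X Y) : good hs (back X (vx e)) (back Y (vy e)) := by
  simp only [leafOK, Bool.and_eq_true, List.all_eq_true] at h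
  obtain ⟨⟨⟨⟨⟨⟨h1, h2⟩, h3⟩, h4⟩, h5⟩, h6⟩, h7⟩ := h
  have e1 := geX_sound h1 hb
  have e2 := geY_sound h2 hb
  have e3 := leV_sound h3 hb
  have e4 := leH_sound h4 hb
  have e5 := geV_sound h5 hb
  have e6 := leX_sound h6 hb
  push_cast at e1 e2 e3 e4 e5 e6
  rw [vv_eq] at e3 e5
  rw [vh_eq] at e4
  refine ⟨⟨?_, ?_, ?_, ?_⟩, ?_, ?_, ?_⟩
  · unfold back; linarith
  · unfold back; linarith
  · unfold back; linarith
  · unfold back; linarith
  · unfold back; linarith
  · unfold back; linarith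
  · intro k hk hin
    obtain ⟨i1, i2, i3, i4, i5, i6, i7, i8⟩ := hin
    unfold back at i1 i2 i3 i4 i5 i6 i7 i8
    have hsep := h7 k hk
    simp only [sepFrom, Bool.or_eq_true] at hsep
    rcases hsep with ((((((h | h) | h) | h) | h) | h) | h) | h
    · have := geX_sound h hb
      push_cast at this
      linarith
    · have := geY_sound h hb
      push_cast at this
      linarith
    · have := leV_sound h hb
      push_cast at this
      rw [vv_eq] at this
      linarith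
    · have := leH_sound h hb
      push_cast at this
      rw [vh_eq] at this
      linarith
    · have := leX_sound h hb
      push_cast at this
      linarith
    · have := leY_sound h hb
      push_cast at this
      linarith
    · have := geV_sound h hb
      push_cast at this
      rw [vv_eq] at this
      linarith
    · have := geH_sound h hb
      push_cast at this
      rw [vh_eq] at this
      linarith

theorem sub_one_lt {u : ℕ} {X : ℝ} (h : 35 * X ≤ ((35 * u - 1 : ℕ) : ℝ)) (h0 : 0 < u) :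
    X < u := by
  have : ((35 * u - 1 : ℕ) : ℝ) = 35 * u - 1 := by
    rw [Nat.cast_sub (by omega)]
    push_cast
    ring
  rw [this] at h
  linarith

theorem holeOK_sound {b k : Bd} {X Y : ℝ} (h : holeOK b k = true) (hb : inBd b X Y)
    (hpos : 0 < k.ux ∧ 0 < k.uy ∧ 0 < k.uv ∧ 0 < k.uh) : inHole k X Y := by
  simp only [holeOK, Bool.and_eq_true] at h
  obtain ⟨⟨⟨⟨⟨⟨⟨h1, h2⟩, h3⟩, h4⟩, h5⟩, h6⟩, h7⟩, h8⟩ := h
  have e1 := geX_sound h1 hb
  have e2 := sub_one_lt (leX_sound h2 hb) hpos.1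
  have e3 := geY_sound h3 hb
  have e4 := sub_one_lt (leY_sound h4 hb) hpos.2.1
  have e5 := geV_sound h5 hb
  have e6 := sub_one_lt (leV_sound h6 hb) hpos.2.2.1
  have e7 := geH_sound h7 hb
  have e8 := sub_one_lt (leH_sound h8 hb) hpos.2.2.2
  push_cast at e1 e3 e5 e7
  exact ⟨by linarith, e2, by linarith, e4, by linarith, e6, by linarith, e8⟩

theorem chkC_sound {hs : List Bd} (hpos : ∀ k ∈ hs, 0 < k.ux ∧ 0 < k.uy ∧ 0 < k.uv ∧ 0 < k.uh)
    (t : CTree) : ∀ (b : Bd), chkC hs t b = true → ∀ {X Y : ℝ}, inBd b X Y →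
    (∀ k ∈ hs, ¬ inHole k X Y) → ∃ e : Dg, good hs (back X (vx e)) (back Y (vy e)) := by
  induction t with
  | leaf e =>
    intro b h X Y hb _
    exact ⟨e, leafOK_sound h hb⟩
  | hole j =>
    intro b h X Y hb hn
    simp only [chkC] at h
    cases hj : hs[j]? with
    | none => rw [hj] at h; simp at h
    | some k =>
      rw [hj] at h
      have hk : k ∈ hs := List.mem_of_getElem? hj
      exact absurd (holeOK_sound h hb (hpos k hk)) (hn k hk)
  | nx c l r ihl ihr =>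
    intro b h X Y hb hn
    simp only [chkC, Bool.and_eq_true] at h
    obtain ⟨h1, h2, h3, h4, h5, h6, h7, h8⟩ := hb
    rcases le_total (35 * X) c with hc | hc
    · exact ihl _ h.1 ⟨h1, hc, h3, h4, h5, h6, h7, h8⟩ hn
    · exact ihr _ h.2 ⟨hc, h2, h3, h4, h5, h6, h7, h8⟩ hn
  | ny c l r ihl ihr =>
    intro b h X Y hb hn
    simp only [chkC, Bool.and_eq_true] at h
    obtain ⟨h1, h2, h3, h4, h5, h6, h7, h8⟩ := hb
    rcases le_total (35 * Y) c with hc | hc
    · exact ihl _ h.1 ⟨h1, h2, h3, hc, h5, h6, h7, h8⟩ hn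
    · exact ihr _ h.2 ⟨h1, h2, hc, h4, h5, h6, h7, h8⟩ hn
  | nv c l r ihl ihr =>
    intro b h X Y hb hn
    simp only [chkC, Bool.and_eq_true] at h
    obtain ⟨h1, h2, h3, h4, h5, h6, h7, h8⟩ := hb
    rcases le_total (35 * (79477 * X + 78000 * Y)) c with hc | hc
    · exact ihl _ h.1 ⟨h1, h2, h3, h4, h5, hc, h7, h8⟩ hn
    · exact ihr _ h.2 ⟨h1, h2, h3, h4, hc, h6, h7, h8⟩ hn
  | nh c l r ihl ihr =>
    intro b h X Y hb hn
    simp only [chkC, Bool.and_eq_true] at h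
    obtain ⟨h1, h2, h3, h4, h5, h6, h7, h8⟩ := hb
    rcases le_total (35 * (20523 * X + 22000 * Y)) c with hc | hc
    · exact ihl _ h.1 ⟨h1, h2, h3, h4, h5, h6, h7, hc⟩ hn
    · exact ihr _ h.2 ⟨h1, h2, h3, h4, h5, h6, hc, h8⟩ hn

/-! ### words -/

/-- consistency of the accumulators -/
def Acc.ok (s : Acc) : Prop :=
  0 < s.p ∧ 0 < s.q ∧ s.v = 79477 * s.x + 78000 * s.y ∧ s.h = 20523 * s.x + 22000 * s.y

theorem vv_eq' (e : Dg) : vv e = 79477 * vx e + 78000 * vy e := by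
  cases e <;> norm_num [vv, vx, vy]

theorem vh_eq' (e : Dg) : vh e = 20523 * vx e + 22000 * vy e := by
  cases e <;> norm_num [vh, vx, vy]

theorem ok_acc0 : acc0.ok := ⟨by decide, by decide, rfl, rfl⟩

theorem ok_push {s : Acc} (h : s.ok) (e : Dg) : (s.push e).ok := by
  obtain ⟨h1, h2, h3, h4⟩ := h
  refine ⟨by simp only [Acc.push]; omega, by simp only [Acc.push]; omega, ?_, ?_⟩
  · simp only [Acc.push, h3, vv_eq']; ring
  · simp only [Acc.push, h4, vh_eq']; ring

theorem ok_accL (w : List Dg) : ∀ {s : Acc}, s.ok → (accL w s).ok := by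
  induction w with
  | nil => intro s h; exact h
  | cons e l ih => intro s h; exact ih (ok_push h e)

/-- the composition `s` maps `(X', Y')` to `(X, Y)` -/
def Rep (s : Acc) (X Y X' Y' : ℝ) : Prop :=
  (s.q : ℝ) * X = s.p * X' + s.x ∧ (s.q : ℝ) * Y = s.p * Y' + s.y

theorem rep_push {s : Acc} {e : Dg} {X Y X' Y' X'' Y'' : ℝ} (h : Rep s X Y X' Y')
    (hx : 35 * X' = 22 * X'' + 13 * vx e) (hy : 35 * Y' = 22 * Y'' + 13 * vy e) :
    Rep (s.push e) X Y X'' Y'' := by
  obtain ⟨h1, h2⟩ := h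
  refine ⟨?_, ?_⟩
  · simp only [Acc.push]
    push_cast
    linear_combination 35 * h1 + (s.p : ℝ) * hx
  · simp only [Acc.push]
    push_cast
    linear_combination 35 * h2 + (s.p : ℝ) * hy

theorem rep_pop {s : Acc} {e : Dg} {X Y X'' Y'' : ℝ} (h : Rep (s.push e) X Y X'' Y'') :
    Rep s X Y ((22 * X'' + 13 * vx e) / 35) ((22 * Y'' + 13 * vy e) / 35) := by
  obtain ⟨h1, h2⟩ := h
  simp only [Acc.push] at h1 h2
  push_cast at h1 h2
  exact ⟨by linear_combination h1 / 35, by linear_combination h2 / 35⟩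

theorem sub_pos_mul {m c A B : ℝ} (hm : 0 < m) (h : m * A = B) (hc : m * c ≤ B) : c ≤ A := by
  by_contra hlt
  push Not at hlt
  have := mul_lt_mul_of_pos_left hlt hm
  linarith

theorem wordOK_sound {hs : List Bd} {s t : Acc} {m : ℕ} {X Y X' Y' a b : ℝ}
    (h : wordOK hs s t m = true) (hs' : s.ok) (ht : t.ok) (hr : Rep s X Y X' Y')
    (hp : inPi X' Y') (hr2 : Rep t X Y a b) : good hs a b := by
  simp only [wordOK, Bool.and_eq_true, Nat.beq_eq, Nat.ble_eq, List.all_eq_true] at h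
  obtain ⟨⟨⟨⟨⟨⟨⟨h0, h1⟩, h2⟩, h3⟩, h4⟩, h5⟩, h6⟩, h7⟩ := h
  obtain ⟨sp, sq, sv, sh⟩ := hs'
  obtain ⟨tp, tq, tv, th⟩ := ht
  obtain ⟨p1, p2, p3, p4⟩ := hp
  obtain ⟨r1, r2⟩ := hr
  obtain ⟨q1, q2⟩ := hr2
  have hm : 0 < m := by
    rcases Nat.eq_zero_or_pos m with h | h
    · rw [h] at h0; simp at h0; omega
    · exact h
  have hM : (0 : ℝ) < (m : ℝ) * t.p := by positivity
  have hS : (0 : ℝ) < (s.p : ℝ) := by positivity
  have e0 : (s.q : ℝ) = m * t.q := by exact_mod_cast h0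
  have e1 : (m * t.x : ℝ) ≤ s.x := by exact_mod_cast h1
  have e2 : (m * t.y : ℝ) ≤ s.y := by exact_mod_cast h2
  have e3 : (s.v + s.p * 79477000000 : ℝ) ≤ m * (t.v + t.p * 79477000000) := by exact_mod_cast h3
  have e4 : (s.h + s.p * 22000000000 : ℝ) ≤ m * (t.h + t.p * 22000000000) := by exact_mod_cast h4
  have e5 : (m * (t.v + t.p * 5563390000) : ℝ) ≤ s.v := by exact_mod_cast h5
  have e6 : (s.x + s.p * 1000000 : ℝ) ≤ m * (t.x + t.p * 930000) := by exact_mod_cast h6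
  have sv' : (s.v : ℝ) = 79477 * s.x + 78000 * s.y := by exact_mod_cast sv
  have sh' : (s.h : ℝ) = 20523 * s.x + 22000 * s.y := by exact_mod_cast sh
  have tv' : (t.v : ℝ) = 79477 * t.x + 78000 * t.y := by exact_mod_cast tv
  have th' : (t.h : ℝ) = 20523 * t.x + 22000 * t.y := by exact_mod_cast th
  have A1 : ((m : ℝ) * t.p) * a = s.p * X' + s.x - m * t.x := by
    linear_combination (-(m : ℝ)) * q1 + r1 - X * e0
  have A2 : ((m : ℝ) * t.p) * b = s.p * Y' + s.y - m * t.y := by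
    linear_combination (-(m : ℝ)) * q2 + r2 - Y * e0
  have A3 : ((m : ℝ) * t.p) * (79477 * a + 78000 * b) =
      s.p * (79477 * X' + 78000 * Y') + s.v - m * t.v := by
    linear_combination 79477 * A1 + 78000 * A2 - sv' + (m : ℝ) * tv'
  have A4 : ((m : ℝ) * t.p) * (20523 * a + 22000 * b) =
      s.p * (20523 * X' + 22000 * Y') + s.h - m * t.h := by
    linear_combination 20523 * A1 + 22000 * A2 - sh' + (m : ℝ) * th'
  have B1 : (0 : ℝ) ≤ s.p * X' := mul_nonneg hS.le p1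
  have B2 : (0 : ℝ) ≤ s.p * Y' := mul_nonneg hS.le p2
  have B3 : (s.p : ℝ) * (79477 * X' + 78000 * Y') ≤ s.p * 79477000000 :=
    mul_le_mul_of_nonneg_left p3 hS.le
  have B4 : (s.p : ℝ) * (20523 * X' + 22000 * Y') ≤ s.p * 22000000000 :=
    mul_le_mul_of_nonneg_left p4 hS.le
  have B5 : (0 : ℝ) ≤ s.p * (79477 * X' + 78000 * Y') := by
    apply mul_nonneg hS.le; linarith
  have B6 : (s.p : ℝ) * X' ≤ s.p * 1000000 :=
    mul_le_mul_of_nonneg_left (by linarith) hS.le
  have lower : ∀ {c A B : ℝ}, ((m : ℝ) * t.p) * A = B → ((m : ℝ) * t.p) * c ≤ B → c ≤ A :=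
    fun h hc => sub_pos_mul hM h hc
  have upper : ∀ {c A B : ℝ}, ((m : ℝ) * t.p) * A = B → B ≤ ((m : ℝ) * t.p) * c → A ≤ c := by
    intro c A B h hc
    exact sub_pos_mul hM rfl (by linarith)
  refine ⟨⟨?_, ?_, ?_, ?_⟩, ?_, ?_, ?_⟩
  · exact lower A1 (by linarith)
  · exact lower A2 (by linarith)
  · exact upper A3 (by linarith)
  · exact upper A4 (by linarith)
  · exact lower A3 (by linarith)
  · exact upper A1 (by linarith)
  · intro k hk hin
    obtain ⟨i1, i2, i3, i4, i5, i6, i7, i8⟩ := hin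
    have hsep := h7 k hk
    simp only [sepW, Bool.or_eq_true, Nat.ble_eq] at hsep
    rcases hsep with ((h | h) | h) | h
    · have h' : (m * (t.x + t.p * k.ux) : ℝ) ≤ s.x := by exact_mod_cast h
      have := lower (c := (k.ux : ℝ)) A1 (by linarith)
      linarith
    · have h' : (m * (t.y + t.p * k.uy) : ℝ) ≤ s.y := by exact_mod_cast h
      have := lower (c := (k.uy : ℝ)) A2 (by linarith)
      linarith
    · have h' : (s.v + s.p * 79477000000 : ℝ) ≤ m * (t.v + t.p * k.lv) := by exact_mod_cast h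
      have := upper (c := (k.lv : ℝ)) A3 (by linarith)
      linarith
    · have h' : (s.h + s.p * 22000000000 : ℝ) ≤ m * (t.h + t.p * k.lh) := by exact_mod_cast h
      have := upper (c := (k.lh : ℝ)) A4 (by linarith)
      linarith

end Pool.Agent.Lib.MP_43eaec_an
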