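import Pool.Agent.Lib.MP_43eaec_an.Lower

/-! # A unique address at `17/27` -/

set_option autoImplicit false

namespace Pool.Agent.Lib.MP_43eaec_an

theorem adr_tail {X Y : ℝ} {ε : ℕ → Fin 4} (h : IsAddress P (17 / 27) (pt X Y) ε) :
    ∃ X1 Y1, IsAddress P (17 / 27) (pt X1 Y1) (fun n => ε (n + 1)) ∧
      27 * X = 17 * X1 + 10 * vx (dg (ε 0)) ∧ 27 * Y = 17 * Y1 + 10 * vy (dg (ε 0)) ∧
      inPi X1 Y1 := by
  obtain ⟨y, hy, he⟩ := addr_tail h (by norm_num)
  refine ⟨y 0, y 1, by rw [pt_eta]; exact hy, ?_, ?_, inPi_of_addr (by norm_num) (by norm_num) hy⟩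
  · have h1 : pt X Y 0 = (17 / 27 : ℝ) * (y 0) + (1 - 17 / 27 : ℝ) * (P (ε 0) 0) := by
      rw [he]; rfl
    rw [pt_0, P_0] at h1
    linear_combination 27 * h1
  · have h1 : pt X Y 1 = (17 / 27 : ℝ) * (y 1) + (1 - 17 / 27 : ℝ) * (P (ε 0) 1) := by
      rw [he]; rfl
    rw [pt_1, P_1] at h1
    linear_combination 27 * h1

/-- digits of the periodic word -/
def W : Fin 5 → Fin 4 := ![0, 1, 0, 1, 3]

/-- first coordinates of the periodic orbit, up to a factor -/
def oA : Fin 5 → ℕ := ![467262, 742122, 418132, 664092, 294202]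

/-- second coordinates of the periodic orbit, up to a factor -/
def oB : Fin 5 → ℕ := ![83521, 132651, 210681, 334611, 531441]

/-- the periodic orbit -/
noncomputable def orb (i : Fin 5) : EuclideanSpace ℝ (Fin 2) :=
  pt (200000 * oA i / 258581) (200000 * oB i / 258581)

theorem no_addr {X Y : ℝ} {ε : ℕ → Fin 4} (h : IsAddress P (17 / 27) (pt X Y) ε)
    (ha : inPi (27 * X / 17) (27 * Y / 17) → False)
    (hb : inPi ((27 * X - 10000000) / 17) (27 * Y / 17) → False)
    (hc : inPi ((27 * X - 2200000) / 17) ((27 * Y - 7947700) / 17) → False)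
    (hd : inPi (27 * X / 17) ((27 * Y - 10000000) / 17) → False) : False := by
  obtain ⟨X1, Y1, h, hx, hy, hp⟩ := adr_tail h
  cases hdg : dg (ε 0) with
  | a =>
    rw [hdg] at hx hy
    simp only [vx, vy, Nat.cast_zero] at hx hy
    apply ha
    rw [show 27 * X / 17 = X1 by linarith, show 27 * Y / 17 = Y1 by linarith]
    exact hp
  | b =>
    rw [hdg] at hx hy
    simp only [vx, vy, Nat.cast_zero] at hx hy
    push_cast at hx hy
    apply hb
    rw [show (27 * X - 10000000) / 17 = X1 by linarith, show 27 * Y / 17 = Y1 by linarith]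
    exact hp
  | c =>
    rw [hdg] at hx hy
    simp only [vx, vy] at hx hy
    push_cast at hx hy
    apply hc
    rw [show (27 * X - 2200000) / 17 = X1 by linarith,
      show (27 * Y - 7947700) / 17 = Y1 by linarith]
    exact hp
  | d =>
    rw [hdg] at hx hy
    simp only [vx, vy, Nat.cast_zero] at hx hy
    push_cast at hx hy
    apply hd
    rw [show 27 * X / 17 = X1 by linarith, show (27 * Y - 10000000) / 17 = Y1 by linarith]
    exact hp

theorem orb_step (i : Fin 5) {ε : ℕ → Fin 4} (h : IsAddress P (17 / 27) (orb i) ε) :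
    ε 0 = W i ∧ IsAddress P (17 / 27) (orb (i + 1)) (fun n => ε (n + 1)) := by
  unfold orb at h
  have h' := h
  obtain ⟨X1, Y1, h1, hx, hy, p1, p2, p3, p4⟩ := adr_tail h
  have key : ∀ (q : Dg) (A B : ℕ), idx q = W i → dg (ε 0) = q →
      X1 = 200000 * A / 258581 → Y1 = 200000 * B / 258581 → oA (i + 1) = A → oB (i + 1) = B →
      ε 0 = W i ∧ IsAddress P (17 / 27) (orb (i + 1)) (fun n => ε (n + 1)) := by
    intro q A B hq hd hX hY hA hB
    refine ⟨?_, ?_⟩
    · rw [← idx_dg (ε 0), hd, hq]
    · unfold orb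
      rw [hA, hB, ← hX, ← hY]
      exact h1
  fin_cases i
  · -- i = 0, digit a
    simp only [oA, oB] at hx hy
    cases hd : dg (ε 0) with
    | a =>
      rw [hd] at hx hy
      norm_num [vx, vy] at hx hy
      exact key .a 742122 132651 rfl hd (by push_cast; linarith) (by push_cast; linarith) rfl rfl
    | b => exfalso; rw [hd] at hx hy; norm_num [vx, vy] at hx hy; linarith
    | c => exfalso; rw [hd] at hx hy; norm_num [vx, vy] at hx hy; linarith
    | d => exfalso; rw [hd] at hx hy; norm_num [vx, vy] at hx hy; linarith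
  · -- i = 1, digit b
    simp only [oA, oB] at hx hy
    cases hd : dg (ε 0) with
    | b =>
      rw [hd] at hx hy
      norm_num [vx, vy] at hx hy
      exact key .b 418132 210681 rfl hd (by push_cast; linarith) (by push_cast; linarith) rfl rfl
    | a => exfalso; rw [hd] at hx hy; norm_num [vx, vy] at hx hy; linarith
    | c => exfalso; rw [hd] at hx hy; norm_num [vx, vy] at hx hy; linarith
    | d => exfalso; rw [hd] at hx hy; norm_num [vx, vy] at hx hy; linarith
  · -- i = 2, digit a
    simp only [oA, oB] at hx hy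
    cases hd : dg (ε 0) with
    | a =>
      rw [hd] at hx hy
      norm_num [vx, vy] at hx hy
      exact key .a 664092 334611 rfl hd (by push_cast; linarith) (by push_cast; linarith) rfl rfl
    | b => exfalso; rw [hd] at hx hy; norm_num [vx, vy] at hx hy; linarith
    | c => exfalso; rw [hd] at hx hy; norm_num [vx, vy] at hx hy; linarith
    | d => exfalso; rw [hd] at hx hy; norm_num [vx, vy] at hx hy; linarith
  · -- i = 3, digit b
    simp only [oA, oB] at hx hy
    cases hd : dg (ε 0) with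
    | b =>
      rw [hd] at hx hy
      norm_num [vx, vy] at hx hy
      exact key .b 294202 531441 rfl hd (by push_cast; linarith) (by push_cast; linarith) rfl rfl
    | a => exfalso; rw [hd] at hx hy; norm_num [vx, vy] at hx hy; linarith
    | c => exfalso; rw [hd] at hx hy; norm_num [vx, vy] at hx hy; linarith
    | d => exfalso; rw [hd] at hx hy; norm_num [vx, vy] at hx hy; linarith
  · -- i = 4, digit d
    simp only [oA, oB] at hx hy
    cases hd : dg (ε 0) with
    | d =>
      rw [hd] at hx hy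
      norm_num [vx, vy] at hx hy
      exact key .d 467262 83521 rfl hd (by push_cast; linarith) (by push_cast; linarith) rfl rfl
    | a => exfalso; rw [hd] at hx hy; norm_num [vx, vy] at hx hy; linarith
    | b => exfalso; rw [hd] at hx hy; norm_num [vx, vy] at hx hy; linarith
    | c =>
      exfalso
      rw [hd] at hx hy
      norm_num [vx, vy] at hx hy
      obtain ⟨X2, Y2, h2, hx2, hy2, r1, r2, r3, r4⟩ := adr_tail h1
      cases hd2 : dg (ε (0 + 1)) with
      | a =>
        rw [hd2] at hx2 hy2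
        norm_num [vx, vy] at hx2 hy2
        refine no_addr h2 ?_ ?_ ?_ ?_
        · rintro ⟨s1, s2, s3, s4⟩; linarith
        · rintro ⟨s1, s2, s3, s4⟩; linarith
        · rintro ⟨s1, s2, s3, s4⟩; linarith
        · rintro ⟨s1, s2, s3, s4⟩; linarith
      | b => rw [hd2] at hx2 hy2; norm_num [vx, vy] at hx2 hy2; linarith
      | c => rw [hd2] at hx2 hy2; norm_num [vx, vy] at hx2 hy2; linarith
      | d => rw [hd2] at hx2 hy2; norm_num [vx, vy] at hx2 hy2; linarith

theorem orb_unique (n : ℕ) : ∀ (i : Fin 5) (ε ε' : ℕ → Fin 4),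
    IsAddress P (17 / 27) (orb i) ε → IsAddress P (17 / 27) (orb i) ε' → ε n = ε' n := by
  induction n with
  | zero =>
    intro i ε ε' h h'
    rw [(orb_step i h).1, (orb_step i h').1]
  | succ n ih =>
    intro i ε ε' h h'
    exact ih (i + 1) _ _ (orb_step i h).2 (orb_step i h').2

theorem oA_map : ∀ i : Fin 5,
    27 * 200000 * oA i = 17 * 200000 * oA (i + 1) + 10 * 258581 * vx (dg (W i)) := by
  decide

theorem oB_map : ∀ i : Fin 5,
    27 * 200000 * oB i = 17 * 200000 * oB (i + 1) + 10 * 258581 * vy (dg (W i)) := by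
  decide

theorem orb_map (i : Fin 5) :
    orb i = (17 / 27 : ℝ) • orb (i + 1) + (1 - 17 / 27 : ℝ) • P (W i) := by
  refine ext2 ?_ ?_
  · show orb i 0 = (17 / 27 : ℝ) * (orb (i + 1) 0) + (1 - 17 / 27 : ℝ) * (P (W i) 0)
    rw [P_0]
    unfold orb
    rw [pt_0, pt_0]
    have h : (27 * 200000 * oA i : ℝ) = 17 * 200000 * oA (i + 1) + 10 * 258581 * vx (dg (W i)) := by
      exact_mod_cast oA_map i
    linear_combination h / (27 * 258581)
  · show orb i 1 = (17 / 27 : ℝ) * (orb (i + 1) 1) + (1 - 17 / 27 : ℝ) * (P (W i) 1)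
    rw [P_1]
    unfold orb
    rw [pt_1, pt_1]
    have h : (27 * 200000 * oB i : ℝ) = 17 * 200000 * oB (i + 1) + 10 * 258581 * vy (dg (W i)) := by
      exact_mod_cast oB_map i
    linear_combination h / (27 * 258581)

/-- the residue of `n` -/
def cyc : ℕ → Fin 5
  | 0 => 0
  | n + 1 => cyc n + 1

theorem orb_addr : ∃ ε : ℕ → Fin 4, IsAddress P (17 / 27) (orb 0) ε := by
  refine ⟨fun n => W (cyc n), ?_⟩
  refine addr_of_orbit (p := P) (lam := 17 / 27) (z := fun n => orb (cyc n))
    (e := fun n => W (cyc n)) (by norm_num) (by norm_num) (fun n => orb_map _) ?_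
  obtain ⟨C, hC⟩ := (Set.finite_range fun i : Fin 5 => ‖orb i‖).bddAbove
  exact ⟨C, fun n => hC ⟨_, rfl⟩⟩

theorem orb_not_vertex : orb 0 ∉ Set.range P := by
  rintro ⟨i, hi⟩
  have h0 : P i 0 = orb 0 0 := by rw [hi]
  rw [P_0] at h0
  unfold orb at h0
  rw [pt_0] at h0
  cases hd : dg i <;> rw [hd] at h0 <;> norm_num [oA, vx] at h0

end Pool.Agent.Lib.MP_43eaec_an
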